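import Mathlib

set_option autoImplicit false

open MeasureTheory Filter Topology Set

namespace Pool.Agent.R951.FM

/-- A compactly supported Borel probability measure on the real line. -/
def CompactProb (μ : Measure ℝ) : Prop :=
  IsProbabilityMeasure μ ∧ ∃ C : ℝ, μ (Icc (-C) C)ᶜ = 0

/-- `μ` is concentrated on `[0, ∞)`. -/
def OnHalfLine (μ : Measure ℝ) : Prop := μ (Iio 0) = 0

/-- The Cauchy transform `G_μ(w) = ∫ dμ(x) / (w - x)`. -/
noncomputable def cauchyT (μ : Measure ℝ) (w : ℂ) : ℂ := ∫ x : ℝ, (w - (x : ℂ))⁻¹ ∂μ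

/-- `R` is the R-transform of the (compactly supported) law `μ` near `0`: `R` is analytic at `0` and
`G_μ(R(z) + 1/z) = z` for all small `z ≠ 0`. -/
def IsRTransform (μ : Measure ℝ) (R : ℂ → ℂ) : Prop :=
  AnalyticAt ℂ R 0 ∧ ∀ᶠ z in 𝓝[≠] (0 : ℂ), cauchyT μ (R z + 1 / z) = z

/-- `μ` is the free additive convolution power `ν^{⊞ t}` (for compactly supported laws): the
R-transform of `μ` is `t` times the one of `ν`. -/
def IsAddPow (t : ℝ) (ν μ : Measure ℝ) : Prop :=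
  ∃ R : ℂ → ℂ, IsRTransform ν R ∧ IsRTransform μ (fun z => (t : ℂ) * R z)

/-- `⊞`-infinite divisibility: for every `n ≥ 1` there is a law `ν` with `ν^{⊞ n} = μ`. -/
def FreelyInfDiv (μ : Measure ℝ) : Prop :=
  ∀ n : ℕ, 1 ≤ n → ∃ ν : Measure ℝ, CompactProb ν ∧ IsAddPow n ν μ

/-- Free regular laws: `μ` is `⊞`-infinitely divisible and `μ^{⊞ t}` is a law on `[0, ∞)` for every
real `t > 0`. -/
def FreeRegular (μ : Measure ℝ) : Prop :=
  FreelyInfDiv μ ∧ ∀ t : ℝ, 0 < t →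
    ∃ ν : Measure ℝ, IsProbabilityMeasure ν ∧ OnHalfLine ν ∧ IsAddPow t μ ν

/-- The moment transform `ψ_μ(z) = ∫ zx / (1 - zx) dμ(x)`. -/
noncomputable def psiT (μ : Measure ℝ) (z : ℂ) : ℂ := ∫ x : ℝ, z * x / (1 - z * x) ∂μ

/-- `S` is Voiculescu's S-transform of the compactly supported law `μ ≠ δ₀` on `[0, ∞)` near `0`:
`S` is analytic at `0` and `z ↦ z S(z) / (1 + z)` is the inverse of `ψ_μ` near `0`. -/
def IsSTransform (μ : Measure ℝ) (S : ℂ → ℂ) : Prop :=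
  AnalyticAt ℂ S 0 ∧ ∀ᶠ z in 𝓝 (0 : ℂ), psiT μ (z / (1 + z) * S z) = z

/-- `κ` is the free multiplicative convolution `μ ⊠ ν` (for compactly supported laws on `[0, ∞)`
different from `δ₀`): `S_κ = S_μ S_ν` near `0`. -/
def IsMulConv (μ ν κ : Measure ℝ) : Prop :=
  ∃ S T : ℂ → ℂ, IsSTransform μ S ∧ IsSTransform ν T ∧ IsSTransform κ (fun z => S z * T z)

end Pool.Agent.R951.FM
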