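import Mathlib

set_option autoImplicit false

open MeasureTheory Filter Topology Set Complex Metric

namespace Pool.Agent.R951.FM

/-- the Herglotz kernel at the point `e^{iθ}` of the unit circle -/
noncomputable def ker (w : ℂ) (θ : ℝ) : ℂ := (exp (θ * I) + w) / (exp (θ * I) - w)

theorem exp_sub_ne {w : ℂ} (hw : ‖w‖ < 1) (θ : ℝ) : exp (θ * I) - w ≠ 0 := by
  intro h
  have h1 : exp (θ * I) = w := sub_eq_zero.mp h
  have h2 : ‖exp (θ * I)‖ = 1 := norm_exp_ofReal_mul_I θ
  rw [h1] at h2
  linarith

theorem continuous_ker {w : ℂ} (hw : ‖w‖ < 1) : Continuous (ker w) := by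
  unfold ker
  exact Continuous.div (by fun_prop) (by fun_prop) (exp_sub_ne hw)

theorem schwarz {f : ℂ → ℂ} (hf : DiffContOnCl ℂ f (ball 0 1)) (h0 : f 0 = 1) {w : ℂ}
    (hw : w ∈ ball (0 : ℂ) 1) :
    ∫ θ in (0 : ℝ)..2 * Real.pi, ker w θ * ((f (exp (θ * I))).re : ℂ) = 2 * Real.pi * f w := by
  have hw1 : ‖w‖ < 1 := by simpa using hw
  have hcl : closure (ball (0 : ℂ) 1) = closedBall 0 1 := closure_ball _ (by norm_num)
  have hcont : ContinuousOn f (closedBall 0 1) := hcl ▸ hf.continuousOn
  have hmem : ∀ θ : ℝ, exp (θ * I) ∈ closedBall (0 : ℂ) 1 := by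
    intro θ
    simp [norm_exp_ofReal_mul_I]
  have hfc : Continuous fun θ : ℝ => f (exp (θ * I)) :=
    hcont.comp_continuous (by fun_prop) hmem
  have hpi : (2 * Real.pi : ℝ) ≠ 0 := by positivity
  have hpi' : ((2 * Real.pi : ℝ) : ℂ) ≠ 0 := by exact_mod_cast hpi
  -- Poisson
  have h1 := hf.circleAverage_re_herglotzRieszKernel_smul' hw
  rw [Real.circleAverage_def] at h1
  have e1 : ∫ θ in (0 : ℝ)..2 * Real.pi, ((ker w θ).re : ℂ) * f (exp (θ * I)) = 2 * Real.pi * f w := by
    have h1' : ∫ θ in (0 : ℝ)..2 * Real.pi, ((ker w θ).re : ℂ) * f (exp (θ * I)) =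
        ((2 * Real.pi : ℝ) : ℂ) * f w := by
      rw [← h1, Complex.real_smul, ← mul_assoc]
      push_cast
      rw [mul_inv_cancel₀ (by push_cast at hpi'; exact hpi'), one_mul]
      apply intervalIntegral.integral_congr
      intro θ _
      simp only [circleMap, sub_zero, zero_add, ofReal_one, one_mul, ker, Complex.real_smul]
    rw [h1']
    push_cast
    ring
  -- mean value
  set g : ℂ → ℂ := fun z => (1 + (starRingEnd ℂ) w * z) / (1 - (starRingEnd ℂ) w * z) * f z with hg
  have hne : ∀ z ∈ closedBall (0 : ℂ) 1, 1 - (starRingEnd ℂ) w * z ≠ 0 := by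
    intro z hz h
    have h2 : (starRingEnd ℂ) w * z = 1 := (sub_eq_zero.mp h).symm
    have h3 : ‖(starRingEnd ℂ) w * z‖ = 1 := by rw [h2]; simp
    rw [norm_mul, RCLike.norm_conj] at h3
    have h4 : ‖z‖ ≤ 1 := by simpa using hz
    nlinarith [norm_nonneg z, norm_nonneg w]
  have hgd : DiffContOnCl ℂ g (ball 0 1) := by
    refine ⟨?_, ?_⟩
    · apply DifferentiableOn.mul _ hf.1
      apply DifferentiableOn.div (by fun_prop) (by fun_prop)
      intro z hz
      exact hne z (ball_subset_closedBall hz)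
    · rw [hcl]
      apply ContinuousOn.mul _ hcont
      apply ContinuousOn.div (by fun_prop) (by fun_prop)
      exact hne
  have h2 := (by simpa using hgd : DiffContOnCl ℂ g (ball 0 |1|)).circleAverage
  rw [Real.circleAverage_def] at h2
  have hg0 : g 0 = 1 := by simp [hg, h0]
  have e2 : ∫ θ in (0 : ℝ)..2 * Real.pi, g (exp (θ * I)) = 2 * Real.pi := by
    have h2' : ∫ θ in (0 : ℝ)..2 * Real.pi, g (exp (θ * I)) = ((2 * Real.pi : ℝ) : ℂ) * g 0 := by
      rw [← h2, Complex.real_smul, ← mul_assoc]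
      push_cast
      rw [mul_inv_cancel₀ (by push_cast at hpi'; exact hpi'), one_mul]
      apply intervalIntegral.integral_congr
      intro θ _
      simp only [circleMap, zero_add, ofReal_one, one_mul]
    rw [h2', hg0]
    push_cast
    ring
  have hgc0 : ContinuousOn g (closedBall 0 1) := hcl ▸ hgd.continuousOn
  have hgc : Continuous fun θ : ℝ => g (exp (θ * I)) :=
    hgc0.comp_continuous (by fun_prop) hmem
  -- pointwise
  have hpt : ∀ θ : ℝ, ker w θ * ((f (exp (θ * I))).re : ℂ) =
      ((ker w θ).re : ℂ) * f (exp (θ * I)) - ((g (exp (θ * I))).im : ℂ) * I := by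
    intro θ
    have hz : (starRingEnd ℂ) (exp (θ * I)) * exp (θ * I) = 1 := by
      rw [← Complex.normSq_eq_conj_mul_self, Complex.normSq_eq_norm_sq, norm_exp_ofReal_mul_I]
      simp
    have hk : (starRingEnd ℂ) (ker w θ) =
        (1 + (starRingEnd ℂ) w * exp (θ * I)) / (1 - (starRingEnd ℂ) w * exp (θ * I)) := by
      unfold ker
      rw [map_div₀, map_add, map_sub]
      have ha : (starRingEnd ℂ) (exp (θ * I)) - (starRingEnd ℂ) w ≠ 0 := by
        rw [← map_sub]
        exact (map_ne_zero _).mpr (exp_sub_ne hw1 θ)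
      have hb := hne _ (hmem θ)
      rw [div_eq_div_iff ha hb]
      linear_combination (-2 * (starRingEnd ℂ) w) * hz
    have hgv : g (exp (θ * I)) = (starRingEnd ℂ) (ker w θ) * f (exp (θ * I)) := by
      rw [hk]
    rw [hgv]
    generalize ker w θ = K
    generalize f (exp (θ * I)) = F
    apply Complex.ext <;> simp <;> ring
  have hkc := continuous_ker hw1
  rw [intervalIntegral.integral_congr (fun θ _ => hpt θ), intervalIntegral.integral_sub, e1]
  · have e3 : ∫ θ in (0 : ℝ)..2 * Real.pi, ((g (exp (θ * I))).im : ℂ) * I = 0 := by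
      rw [intervalIntegral.integral_mul_const, intervalIntegral.integral_ofReal]
      have e4 : ∫ θ in (0 : ℝ)..2 * Real.pi, (g (exp (θ * I))).im =
          (∫ θ in (0 : ℝ)..2 * Real.pi, g (exp (θ * I))).im := by
        have := (Complex.imCLM).intervalIntegral_comp_comm
          (hgc.intervalIntegrable (μ := volume) 0 (2 * Real.pi))
        simpa using this
      rw [e4, e2]
      simp
    rw [e3, sub_zero]
  · apply Continuous.intervalIntegrable
    have : Continuous fun θ : ℝ => ((ker w θ).re : ℂ) := by fun_prop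
    exact this.mul hfc
  · apply Continuous.intervalIntegrable
    have : Continuous fun θ : ℝ => ((g (exp (θ * I))).im : ℂ) :=
      Complex.continuous_ofReal.comp (Complex.continuous_im.comp hgc)
    exact this.mul continuous_const

end Pool.Agent.R951.FM
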