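import Mathlib
import Pool.Agent.R951.FM.Hz

set_option autoImplicit false

open MeasureTheory Filter Topology Set Complex Metric
open scoped NNReal ENNReal

namespace Pool.Agent.R951.FM

theorem norm_ker_le {w : ℂ} (hw : ‖w‖ < 1) (θ : ℝ) : ‖ker w θ‖ ≤ 2 / (1 - ‖w‖) := by
  unfold ker
  rw [norm_div]
  have h2 : ‖exp (θ * I)‖ = 1 := norm_exp_ofReal_mul_I θ
  have h3 : 1 - ‖w‖ ≤ ‖exp (θ * I) - w‖ := by
    have := norm_sub_norm_le (exp (θ * I)) w
    rwa [h2] at this
  have h4 : ‖exp (θ * I) + w‖ ≤ 2 := by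
    have := norm_add_le (exp (θ * I)) w
    rw [h2] at this
    linarith
  have h5 : 0 < 1 - ‖w‖ := by linarith
  exact div_le_div₀ (by norm_num) h4 h5 h3

/-- the density of the approximating measures -/
noncomputable def dens (f : ℂ → ℂ) (θ : ℝ) : ℝ := (2 * Real.pi)⁻¹ * (f (exp (θ * I))).re

/-- the approximating measures -/
noncomputable def apm (f : ℂ → ℂ) : Measure ℝ :=
  (volume.restrict (Ioc 0 (2 * Real.pi))).withDensity (fun θ => ENNReal.ofReal (dens f θ))

theorem dens_cont {f : ℂ → ℂ} (hf : DiffContOnCl ℂ f (ball 0 1)) : Continuous (dens f) := by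
  have hcl : closure (ball (0 : ℂ) 1) = closedBall 0 1 := closure_ball _ (by norm_num)
  have hcont : ContinuousOn f (closedBall 0 1) := hcl ▸ hf.continuousOn
  have hmem : ∀ θ : ℝ, exp (θ * I) ∈ closedBall (0 : ℂ) 1 := by
    intro θ
    simp [norm_exp_ofReal_mul_I]
  have hfc : Continuous fun θ : ℝ => f (exp (θ * I)) :=
    hcont.comp_continuous (by fun_prop) hmem
  exact continuous_const.mul (Complex.continuous_re.comp hfc)

theorem integral_apm {f : ℂ → ℂ} (hf : DiffContOnCl ℂ f (ball 0 1))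
    (hpos : ∀ θ : ℝ, 0 ≤ (f (exp (θ * I))).re) (φ : ℝ → ℂ) :
    ∫ θ, φ θ ∂(apm f) = ∫ θ in (0 : ℝ)..2 * Real.pi, (dens f θ : ℂ) * φ θ := by
  unfold apm
  rw [integral_withDensity_eq_integral_toReal_smul (dens_cont hf).measurable.ennreal_ofReal
    (Eventually.of_forall fun _ => ENNReal.ofReal_lt_top)]
  rw [intervalIntegral.integral_of_le (by positivity)]
  congr 1
  ext θ
  rw [ENNReal.toReal_ofReal (by unfold dens; exact mul_nonneg (by positivity) (hpos θ)),
    Complex.real_smul]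

theorem prob_apm {f : ℂ → ℂ} (hf : DiffContOnCl ℂ f (ball 0 1)) (h0 : f 0 = 1)
    (hpos : ∀ θ : ℝ, 0 ≤ (f (exp (θ * I))).re) : IsProbabilityMeasure (apm f) := by
  refine ⟨?_⟩
  unfold apm
  rw [withDensity_apply _ MeasurableSet.univ, Measure.restrict_univ]
  have hc := dens_cont hf
  rw [← ofReal_integral_eq_lintegral_ofReal]
  · rw [← intervalIntegral.integral_of_le (by positivity)]
    have h1 := schwarz hf h0 (w := 0) (by simp)
    have h2 : ∀ θ : ℝ, ker 0 θ = 1 := by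
      intro θ
      unfold ker
      rw [add_zero, sub_zero, div_self (exp_ne_zero _)]
    simp only [h2, one_mul, h0, mul_one] at h1
    rw [intervalIntegral.integral_ofReal] at h1
    have h3 : ∫ θ in (0 : ℝ)..2 * Real.pi, (f (exp (θ * I))).re = 2 * Real.pi := by
      exact_mod_cast h1
    unfold dens
    rw [intervalIntegral.integral_const_mul, h3, inv_mul_cancel₀ (by positivity)]
    simp
  · exact (hc.integrableOn_Icc (a := 0) (b := 2 * Real.pi)).mono_set Ioc_subset_Icc_self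
  · exact Eventually.of_forall fun θ => mul_nonneg (by positivity) (hpos θ)

theorem apm_ker {f : ℂ → ℂ} (hf : DiffContOnCl ℂ f (ball 0 1)) (h0 : f 0 = 1)
    (hpos : ∀ θ : ℝ, 0 ≤ (f (exp (θ * I))).re) {w : ℂ} (hw : w ∈ ball (0 : ℂ) 1) :
    ∫ θ, ker w θ ∂(apm f) = f w := by
  rw [integral_apm hf hpos]
  have h1 := schwarz hf h0 hw
  have hpi : (2 * Real.pi : ℂ) ≠ 0 := by
    have := Real.pi_ne_zero
    simp [this]
  have h2 : ∫ θ in (0 : ℝ)..2 * Real.pi, (dens f θ : ℂ) * ker w θ =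
      (2 * Real.pi : ℂ)⁻¹ * ∫ θ in (0 : ℝ)..2 * Real.pi, ker w θ * ((f (exp (θ * I))).re : ℂ) := by
    rw [← intervalIntegral.integral_const_mul]
    apply intervalIntegral.integral_congr
    intro θ _
    simp only [dens]
    push_cast
    ring
  rw [h2, h1, ← mul_assoc, inv_mul_cancel₀ hpi, one_mul]

/-- **Herglotz' theorem** -/
theorem herglotz {h : ℂ → ℂ} (hd : DifferentiableOn ℂ h (ball 0 1))
    (hre : ∀ u ∈ ball (0 : ℂ) 1, 0 ≤ (h u).re) (h0 : h 0 = 1) :
    ∃ σ : Measure ℝ, IsProbabilityMeasure σ ∧ ∀ u ∈ ball (0 : ℂ) 1, h u = ∫ θ, ker u θ ∂σ := by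
  set r : ℕ → ℝ := fun n => 1 - 1 / ((n : ℝ) + 2) with hr
  have hr0 : ∀ n, 0 < r n := by
    intro n
    have : (1 : ℝ) / ((n : ℝ) + 2) ≤ 1 / 2 := by
      apply one_div_le_one_div_of_le (by norm_num)
      have : (0 : ℝ) ≤ n := Nat.cast_nonneg n
      linarith
    simp only [hr]
    linarith
  have hr1 : ∀ n, r n < 1 := by
    intro n
    have : (0 : ℝ) < 1 / ((n : ℝ) + 2) := by positivity
    simp only [hr]
    linarith
  have hrlim : Tendsto r atTop (𝓝 1) := by
    have h1 : Tendsto (fun n : ℕ => 1 / ((n : ℝ) + 2)) atTop (𝓝 0) := by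
      have := tendsto_one_div_add_atTop_nhds_zero_nat (𝕜 := ℝ)
      have h2 := (tendsto_add_atTop_iff_nat 1).mpr this
      refine h2.congr fun n => ?_
      push_cast
      ring_nf
    have h3 := (tendsto_const_nhds (x := (1 : ℝ)) (f := (atTop : Filter ℕ))).sub h1
    rw [sub_zero] at h3
    exact h3
  have hmap : ∀ n, ∀ z ∈ closedBall (0 : ℂ) 1, (r n : ℂ) * z ∈ ball (0 : ℂ) 1 := by
    intro n z hz
    simp only [mem_closedBall, dist_zero_right] at hz
    simp only [mem_ball, dist_zero_right, norm_mul, Complex.norm_real, Real.norm_eq_abs,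
      abs_of_pos (hr0 n)]
    have := hr1 n
    have := hr0 n
    nlinarith [norm_nonneg z]
  set f : ℕ → ℂ → ℂ := fun n z => h ((r n : ℂ) * z) with hf
  have hfd : ∀ n, DiffContOnCl ℂ (f n) (ball 0 1) := by
    intro n
    apply DifferentiableOn.diffContOnCl
    rw [closure_ball _ (by norm_num)]
    exact hd.comp (by fun_prop) (hmap n)
  have hf0 : ∀ n, f n 0 = 1 := by
    intro n
    simp [hf, h0]
  have hfpos : ∀ n, ∀ θ : ℝ, 0 ≤ (f n (exp (θ * I))).re := by
    intro n θ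
    apply hre
    apply hmap
    simp [norm_exp_ofReal_mul_I]
  have hp : ∀ n, IsProbabilityMeasure (apm (f n)) := fun n => prob_apm (hfd n) (hf0 n) (hfpos n)
  set σ : ℕ → ProbabilityMeasure ℝ := fun n => ⟨apm (f n), hp n⟩ with hσ
  have hK := isCompact_setOfPred_probabilityMeasure_mass_eq_compl_isCompact_le (E := ℝ)
    (u := fun _ => (0 : ℝ≥0)) (K := fun _ => Icc (0 : ℝ) (2 * Real.pi)) tendsto_const_nhds
    (fun _ => isCompact_Icc) (Or.inl inferInstance)
  have hmem : ∀ n, σ n ∈ {μ : ProbabilityMeasure ℝ | ∀ n : ℕ, μ (Icc (0 : ℝ) (2 * Real.pi))ᶜ ≤ (0 : ℝ≥0)} := by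
    intro n _
    have h1 : (apm (f n)) (Icc (0 : ℝ) (2 * Real.pi))ᶜ = 0 := by
      unfold apm
      apply withDensity_absolutelyContinuous
      rw [Measure.restrict_apply measurableSet_Icc.compl]
      have : (Icc (0 : ℝ) (2 * Real.pi))ᶜ ∩ Ioc (0 : ℝ) (2 * Real.pi) = ∅ := by
        ext x
        simp only [mem_inter_iff, mem_compl_iff, mem_Icc, mem_Ioc, mem_empty_iff_false, iff_false]
        rintro ⟨h1, h2, h3⟩
        exact h1 ⟨h2.le, h3⟩
      rw [this, measure_empty]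
    have h2 : ((σ n : Measure ℝ)) (Icc (0 : ℝ) (2 * Real.pi))ᶜ = 0 := h1
    exact le_of_eq ((ProbabilityMeasure.null_iff_toMeasure_null (σ n) _).mpr h2)
  obtain ⟨τ, hτ, hlim⟩ := hK.ultrafilter_le_nhds' ((hyperfilter ℕ : Ultrafilter ℕ).map σ) (by
    rw [Ultrafilter.mem_map]
    exact Filter.Eventually.of_forall hmem)
  have hlim' : Tendsto σ (hyperfilter ℕ : Filter ℕ) (𝓝 τ) := hlim
  rw [ProbabilityMeasure.tendsto_iff_forall_integral_rclike_tendsto ℂ] at hlim'
  refine ⟨τ, inferInstance, ?_⟩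
  intro u hu
  have hu1 : ‖u‖ < 1 := by simpa using hu
  set F : BoundedContinuousFunction ℝ ℂ :=
    BoundedContinuousFunction.ofNormedAddCommGroup (ker u) (continuous_ker hu1) (2 / (1 - ‖u‖))
      (norm_ker_le hu1) with hF
  have h1 := hlim' F
  have h2 : ∀ n, ∫ θ, F θ ∂(σ n : Measure ℝ) = h ((r n : ℂ) * u) := by
    intro n
    have := apm_ker (hfd n) (hf0 n) (hfpos n) hu
    exact this
  simp only [h2] at h1
  have h3 : Tendsto (fun n => h ((r n : ℂ) * u)) atTop (𝓝 (h u)) := by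
    have hc : ContinuousAt h u := (hd.differentiableAt (isOpen_ball.mem_nhds hu)).continuousAt
    have h4 : Tendsto (fun n => (r n : ℂ) * u) atTop (𝓝 u) := by
      have h5 : Tendsto (fun n => (r n : ℂ)) atTop (𝓝 ((1 : ℝ) : ℂ)) :=
        (Complex.continuous_ofReal.tendsto 1).comp hrlim
      have h6 := h5.mul_const u
      simpa using h6
    exact hc.tendsto.comp h4
  have h4 : Tendsto (fun n => h ((r n : ℂ) * u)) (hyperfilter ℕ : Filter ℕ) (𝓝 (h u)) :=
    h3.mono_left (Nat.hyperfilter_le_atTop)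
  exact tendsto_nhds_unique h4 h1

end Pool.Agent.R951.FM
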