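import Mathlib
import Pool.Agent.R951.FM.Defs
import Pool.Agent.R951.FM.Hz2

set_option autoImplicit false

open MeasureTheory Filter Topology Set Complex Metric

namespace Pool.Agent.R951.FM

/-- the slit -/
def Slit (L U : ℝ) : Set ℂ := {z | z.im = 0 ∧ L ≤ z.re ∧ z.re ≤ U}

/-- the Joukowski map onto the complement of the slit -/
noncomputable def jk (L U : ℝ) (u : ℂ) : ℂ :=
  (((L + U) / 2 : ℝ) : ℂ) + (((U - L) / 4 : ℝ) : ℂ) * (u + u⁻¹)

theorem jk_notMem {L U : ℝ} (hLU : L < U) {u : ℂ} (h0 : u ≠ 0) (h1 : ‖u‖ < 1) :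
    jk L U u ∉ Slit L U := by
  rintro ⟨him, hL, hU⟩
  have hN : 0 < normSq u := normSq_pos.mpr h0
  have hN1 : normSq u < 1 := by
    rw [normSq_eq_norm_sq]
    have := norm_nonneg u
    nlinarith
  unfold jk at him hL hU
  simp only [add_im, ofReal_im, mul_im, ofReal_re, zero_mul, inv_im, inv_re, add_re, mul_re,
    zero_add, add_zero, sub_zero] at him hL hU
  have hNx : normSq u = u.re * u.re + u.im * u.im := normSq_apply u
  have h2 : u.im * (normSq u - 1) = 0 := by
    have h3 : (U - L) / 4 ≠ 0 := by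
      have : 0 < U - L := by linarith
      positivity
    have h4 : u.im + -u.im / normSq u = 0 := (mul_eq_zero.mp him).resolve_left h3
    field_simp at h4
    linarith
  have h3 : u.im = 0 := by
    rcases mul_eq_zero.mp h2 with h | h
    · exact h
    · linarith
  rw [h3] at hNx
  have hre : u.re ≠ 0 := by
    intro h
    rw [h] at hNx
    linarith
  have h5 : u.re + u.re / normSq u = u.re + 1 / u.re := by
    rw [hNx]
    field_simp
    ring
  rw [h5] at hL hU
  have h6 : u.re * u.re < 1 := by linarith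
  rcases lt_or_gt_of_ne hre with hneg | hpos
  · have h7 : u.re + 1 / u.re < -2 := by
      have : u.re + 1 / u.re + 2 = (u.re + 1) ^ 2 / u.re := by field_simp; ring
      have h8 : (u.re + 1) ^ 2 / u.re < 0 := by
        apply div_neg_of_pos_of_neg _ hneg
        have : u.re + 1 ≠ 0 := by nlinarith
        positivity
      linarith
    nlinarith
  · have h7 : 2 < u.re + 1 / u.re := by
      have : u.re + 1 / u.re - 2 = (u.re - 1) ^ 2 / u.re := by field_simp; ring
      have h8 : 0 < (u.re - 1) ^ 2 / u.re := by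
        apply div_pos _ hpos
        have : u.re - 1 ≠ 0 := by nlinarith
        positivity
      linarith
    nlinarith

theorem jk_surj {L U : ℝ} (hLU : L < U) {z : ℂ} (hz : z ∉ Slit L U) :
    ∃ u : ℂ, u ≠ 0 ∧ ‖u‖ < 1 ∧ jk L U u = z := by
  have hd : (((U - L) / 4 : ℝ) : ℂ) ≠ 0 := by
    have : (U - L) / 4 ≠ 0 := by
      have : 0 < U - L := by linarith
      positivity
    exact_mod_cast this
  set w : ℂ := (z - (((L + U) / 2 : ℝ) : ℂ)) / (((U - L) / 4 : ℝ) : ℂ) with hw
  obtain ⟨s, hs⟩ := IsAlgClosed.exists_pow_nat_eq (w ^ 2 - 4) (n := 2) (by norm_num)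
  set u : ℂ := (w + s) / 2 with hu
  have hu2 : u ^ 2 - w * u + 1 = 0 := by
    rw [hu]
    linear_combination (1 / 4) * hs
  have hu0 : u ≠ 0 := by
    intro h
    rw [h] at hu2
    norm_num at hu2
  have hsum : u + u⁻¹ = w := by
    field_simp
    linear_combination hu2
  have hzw : jk L U u = z := by
    unfold jk
    rw [hsum, hw]
    field_simp
    ring
  rcases lt_trichotomy ‖u‖ 1 with h | h | h
  · exact ⟨u, hu0, h, hzw⟩
  · exfalso
    apply hz
    have hinv : u⁻¹ = (starRingEnd ℂ) u := by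
      rw [Complex.inv_def, normSq_eq_norm_sq, h]
      simp
    rw [← hzw]
    unfold jk
    rw [hinv, Complex.add_conj]
    have h1 : |u.re| ≤ 1 := by
      have := Complex.abs_re_le_norm u
      linarith
    rw [abs_le] at h1
    refine ⟨?_, ?_, ?_⟩
    · simp
    · simp
      nlinarith
    · simp
      nlinarith
  · refine ⟨u⁻¹, inv_ne_zero hu0, ?_, ?_⟩
    · rw [norm_inv]
      exact inv_lt_one_of_one_lt₀ h
    · rw [← hzw]
      unfold jk
      rw [inv_inv, add_comm u⁻¹ u]

theorem jk_differentiableAt (L U : ℝ) {u : ℂ} (hu : u ≠ 0) : DifferentiableAt ℂ (jk L U) u := by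
  unfold jk
  fun_prop (disch := exact hu)

theorem jk_tendsto {L U : ℝ} (hLU : L < U) :
    Tendsto (jk L U) (𝓝[≠] 0) (Bornology.cobounded ℂ) := by
  rw [← tendsto_norm_atTop_iff_cobounded]
  have h1 : Tendsto (fun u : ℂ => ‖u⁻¹‖) (𝓝[≠] 0) atTop := by
    have := tendsto_inv₀_nhdsNE_zero (α := ℂ)
    exact tendsto_norm_atTop_iff_cobounded.mpr this
  have h2 : Tendsto (fun u : ℂ => ‖(((L + U) / 2 : ℝ) : ℂ) * u + (((U - L) / 4 : ℝ) : ℂ) * (u ^ 2 + 1)‖)
      (𝓝[≠] 0) (𝓝 ((U - L) / 4)) := by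
    have hc : Continuous (fun u : ℂ => ‖(((L + U) / 2 : ℝ) : ℂ) * u + (((U - L) / 4 : ℝ) : ℂ) * (u ^ 2 + 1)‖) := by
      fun_prop
    have h3 := (hc.tendsto 0).mono_left (nhdsWithin_le_nhds (s := {0}ᶜ))
    have h4 : ‖(((L + U) / 2 : ℝ) : ℂ) * 0 + (((U - L) / 4 : ℝ) : ℂ) * (0 ^ 2 + 1)‖ = (U - L) / 4 := by
      rw [mul_zero, zero_add]
      simp only [ne_eq, OfNat.ofNat_ne_zero, not_false_eq_true, zero_pow, zero_add, mul_one,
        Complex.norm_real, Real.norm_eq_abs]
      exact abs_of_pos (by linarith)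
    rw [h4] at h3
    exact h3
  have h3 := Tendsto.atTop_mul_pos (by linarith : 0 < (U - L) / 4) h1 h2
  refine h3.congr' ?_
  filter_upwards [self_mem_nhdsWithin] with u hu
  rw [← norm_mul]
  congr 1
  have hu' : u ≠ 0 := hu
  unfold jk
  field_simp

end Pool.Agent.R951.FM
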