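import Mathlib
import Pool.Agent.R951.FM.Meas

set_option autoImplicit false

open MeasureTheory Filter Topology Set Complex Metric

namespace Pool.Agent.R951.FM

/-- the Herglotz function attached to `g` -/
noncomputable def hz (L U : ℝ) (g : ℂ → ℂ) (u : ℂ) : ℂ :=
  if u = 0 then 1 else g (jk L U u) * ((((U - L) / 4 : ℝ) : ℂ) * (u⁻¹ - u))

theorem hz_ne {L U : ℝ} {g : ℂ → ℂ} {u : ℂ} (hu : u ≠ 0) :
    hz L U g u = g (jk L U u) * ((((U - L) / 4 : ℝ) : ℂ) * (u⁻¹ - u)) := if_neg hu

theorem isClosed_Slit (L U : ℝ) : IsClosed (Slit L U) := by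
  have : Slit L U = {z : ℂ | z.im = 0} ∩ ({z : ℂ | L ≤ z.re} ∩ {z : ℂ | z.re ≤ U}) := rfl
  rw [this]
  exact (isClosed_eq continuous_im continuous_const).inter
    ((isClosed_le continuous_const continuous_re).inter (isClosed_le continuous_re continuous_const))

theorem hz_diff {L U : ℝ} (hLU : L < U) {g : ℂ → ℂ} (hd : DifferentiableOn ℂ g (Slit L U)ᶜ)
    (hlim : Tendsto (fun z => z * g z) (Bornology.cobounded ℂ) (𝓝 1)) :
    DifferentiableOn ℂ (hz L U g) (ball 0 1) := by
  have hc0 : ContinuousAt (hz L U g) 0 := by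
    rw [continuousAt_iff_punctured_nhds]
    have h0 : hz L U g 0 = 1 := if_pos rfl
    rw [h0]
    have h1 := hlim.comp (jk_tendsto hLU)
    have h2 : Tendsto (fun u : ℂ => ((((U - L) / 4 : ℝ) : ℂ) * (1 - u ^ 2)) /
        ((((L + U) / 2 : ℝ) : ℂ) * u + (((U - L) / 4 : ℝ) : ℂ) * (u ^ 2 + 1))) (𝓝[≠] 0) (𝓝 1) := by
      have hd4 : (((U - L) / 4 : ℝ) : ℂ) ≠ 0 := by
        have : (U - L) / 4 ≠ 0 := by
          have : 0 < U - L := by linarith
          positivity
        exact_mod_cast this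
      have hc : ContinuousAt (fun u : ℂ => ((((U - L) / 4 : ℝ) : ℂ) * (1 - u ^ 2)) /
        ((((L + U) / 2 : ℝ) : ℂ) * u + (((U - L) / 4 : ℝ) : ℂ) * (u ^ 2 + 1))) 0 := by
        apply ContinuousAt.div (by fun_prop) (by fun_prop)
        simpa using hd4
      have h3 := hc.tendsto.mono_left (nhdsWithin_le_nhds (s := {0}ᶜ))
      have h4 : ((((U - L) / 4 : ℝ) : ℂ) * (1 - (0 : ℂ) ^ 2)) /
        ((((L + U) / 2 : ℝ) : ℂ) * 0 + (((U - L) / 4 : ℝ) : ℂ) * (0 ^ 2 + 1)) = 1 := by
        simp only [ne_eq, OfNat.ofNat_ne_zero, not_false_eq_true, zero_pow, sub_zero, mul_one,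
          mul_zero, zero_add]
        exact div_self hd4
      rw [h4] at h3
      exact h3
    have h3 := h1.mul h2
    rw [one_mul] at h3
    refine h3.congr' ?_
    have hb : ∀ᶠ u : ℂ in 𝓝[≠] 0, jk L U u ≠ 0 := by
      have := (jk_tendsto hLU).eventually (Bornology.isBounded_singleton (x := (0 : ℂ)))
      filter_upwards [this] with u hu h
      exact hu h
    filter_upwards [self_mem_nhdsWithin, hb] with u hu hb
    have hu' : u ≠ 0 := hu
    rw [hz_ne hu', Function.comp_apply]
    have hj : (((L + U) / 2 : ℝ) : ℂ) * u + (((U - L) / 4 : ℝ) : ℂ) * (u ^ 2 + 1) = u * jk L U u := by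
      unfold jk
      field_simp
    rw [hj]
    field_simp
  rw [← Complex.differentiableOn_compl_singleton_and_continuousAt_iff
    (isOpen_ball.mem_nhds (by simp : (0 : ℂ) ∈ ball (0 : ℂ) 1))]
  refine ⟨?_, hc0⟩
  rintro u ⟨hu1, hu0⟩
  have hu0' : u ≠ 0 := hu0
  have hu1' : ‖u‖ < 1 := by simpa using hu1
  apply DifferentiableAt.differentiableWithinAt
  have hev : hz L U g =ᶠ[𝓝 u] fun v => g (jk L U v) * ((((U - L) / 4 : ℝ) : ℂ) * (v⁻¹ - v)) := by
    filter_upwards [isOpen_ne.mem_nhds hu0'] with v hv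
    exact hz_ne hv
  apply DifferentiableAt.congr_of_eventuallyEq _ hev
  have h1 : DifferentiableAt ℂ g (jk L U u) :=
    hd.differentiableAt ((isClosed_Slit L U).isOpen_compl.mem_nhds (jk_notMem hLU hu0' hu1'))
  have h2 : DifferentiableAt ℂ (fun v => g (jk L U v)) u :=
    DifferentiableAt.comp u h1 (jk_differentiableAt L U hu0')
  exact h2.mul (by fun_prop (disch := exact hu0'))

theorem jk_im (L U : ℝ) {u : ℂ} (hu : u ≠ 0) :
    (jk L U u).im = (U - L) / 4 * (u.im * (1 - 1 / normSq u)) := by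
  have hN : normSq u ≠ 0 := (normSq_pos.mpr hu).ne'
  unfold jk
  simp only [add_im, ofReal_im, mul_im, ofReal_re, zero_mul, inv_im, add_zero, zero_add]
  field_simp
  ring

theorem jk_conj (L U : ℝ) (u : ℂ) : jk L U ((starRingEnd ℂ) u) = (starRingEnd ℂ) (jk L U u) := by
  unfold jk
  rw [map_add, map_mul, map_add, map_inv₀, Complex.conj_ofReal, Complex.conj_ofReal]

theorem hz_conj {L U : ℝ} (hLU : L < U) {g : ℂ → ℂ}
    (hconj : ∀ z ∉ Slit L U, g ((starRingEnd ℂ) z) = (starRingEnd ℂ) (g z)) {u : ℂ}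
    (hu : ‖u‖ < 1) : hz L U g ((starRingEnd ℂ) u) = (starRingEnd ℂ) (hz L U g u) := by
  by_cases h : u = 0
  · simp [h, hz]
  · have h' : (starRingEnd ℂ) u ≠ 0 := (map_ne_zero _).mpr h
    rw [hz_ne h, hz_ne h', jk_conj, hconj _ (jk_notMem hLU h hu), map_mul, map_mul, map_sub,
      map_inv₀, Complex.conj_ofReal]

theorem hz_re_bound {L U : ℝ} (hLU : L < U) {g : ℂ → ℂ} {C : ℝ}
    (hC : ∀ z ∉ Slit L U, ‖g z‖ ≤ C) (him : ∀ z : ℂ, 0 < z.im → (g z).im ≤ 0)
    (hconj : ∀ z ∉ Slit L U, g ((starRingEnd ℂ) z) = (starRingEnd ℂ) (g z)) {u : ℂ}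
    (hu0 : u ≠ 0) (hu : ‖u‖ < 1) :
    -((U - L) / 4 * C * (1 / normSq u - 1)) ≤ (hz L U g u).re := by
  have hN : 0 < normSq u := normSq_pos.mpr hu0
  have hN1 : normSq u < 1 := by
    rw [normSq_eq_norm_sq]
    have := norm_nonneg u
    nlinarith
  have hNx : normSq u = u.re * u.re + u.im * u.im := normSq_apply u
  have hns := jk_notMem hLU hu0 hu
  have hb := hC _ hns
  have hC0 : 0 ≤ C := le_trans (norm_nonneg _) hb
  rw [hz_ne hu0]
  have hd : 0 < (U - L) / 4 := by linarith
  -- sign of the imaginary part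
  have hs : 0 ≤ (g (jk L U u)).im * u.im := by
    have hji := jk_im L U hu0
    have h1 : 1 - 1 / normSq u < 0 := by
      have : 1 < 1 / normSq u := by
        rw [lt_div_iff₀ hN]
        linarith
      linarith
    rcases lt_trichotomy u.im 0 with h | h | h
    · have h2 : 0 < (jk L U u).im := by
        rw [hji]
        exact mul_pos hd (mul_pos_of_neg_of_neg h h1)
      have := him _ h2
      nlinarith
    · rw [h]
      simp
    · have h2 : 0 < (jk L U ((starRingEnd ℂ) u)).im := by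
        rw [jk_conj, conj_im, hji]
        have := mul_pos hd (mul_pos h (by linarith : 0 < -(1 - 1 / normSq u)))
        linarith
      have h3 := him _ h2
      rw [jk_conj, hconj _ hns, conj_im] at h3
      nlinarith
  have hre : (g (jk L U u) * ((((U - L) / 4 : ℝ) : ℂ) * (u⁻¹ - u))).re =
      (U - L) / 4 * ((g (jk L U u)).re * (u.re * (1 / normSq u - 1)) +
        (g (jk L U u)).im * u.im * (1 / normSq u + 1)) := by
    simp only [mul_re, ofReal_re, sub_re, inv_re, ofReal_im, sub_im, inv_im, mul_im, zero_mul,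
      sub_zero, add_zero]
    field_simp
    ring
  rw [hre]
  have h1 : |(g (jk L U u)).re| ≤ C := (abs_re_le_norm _).trans hb
  have h2 : |u.re| ≤ 1 := (abs_re_le_norm _).trans hu.le
  have h3 : |(g (jk L U u)).re * u.re| ≤ C := by
    rw [abs_mul]
    calc |(g (jk L U u)).re| * |u.re| ≤ C * 1 := mul_le_mul h1 h2 (abs_nonneg _) hC0
      _ = C := mul_one C
  have h4 : 0 < 1 / normSq u - 1 := by
    have : 1 < 1 / normSq u := by
      rw [lt_div_iff₀ hN]
      linarith
    linarith
  have h5 : -C ≤ (g (jk L U u)).re * u.re := (abs_le.mp h3).1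
  have h6 : 0 ≤ (g (jk L U u)).im * u.im * (1 / normSq u + 1) :=
    mul_nonneg hs (by linarith)
  have h7 : -C * (1 / normSq u - 1) ≤ (g (jk L U u)).re * u.re * (1 / normSq u - 1) :=
    mul_le_mul_of_nonneg_right h5 h4.le
  have h8 : (U - L) / 4 * (-C * (1 / normSq u - 1)) ≤
      (U - L) / 4 * ((g (jk L U u)).re * u.re * (1 / normSq u - 1)) :=
    mul_le_mul_of_nonneg_left h7 hd.le
  have h9 : 0 ≤ (U - L) / 4 * ((g (jk L U u)).im * u.im * (1 / normSq u + 1)) :=
    mul_nonneg hd.le h6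
  nlinarith

theorem hz_re_nonneg {L U : ℝ} (hLU : L < U) {g : ℂ → ℂ} (hd : DifferentiableOn ℂ g (Slit L U)ᶜ)
    (hlim : Tendsto (fun z => z * g z) (Bornology.cobounded ℂ) (𝓝 1)) {C : ℝ}
    (hC : ∀ z ∉ Slit L U, ‖g z‖ ≤ C) (him : ∀ z : ℂ, 0 < z.im → (g z).im ≤ 0)
    (hconj : ∀ z ∉ Slit L U, g ((starRingEnd ℂ) z) = (starRingEnd ℂ) (g z)) {u : ℂ}
    (hu : u ∈ ball (0 : ℂ) 1) : 0 ≤ (hz L U g u).re := by
  have hdd := hz_diff hLU hd hlim
  have hu1 : ‖u‖ < 1 := by simpa using hu
  have key : ∀ r : ℝ, ‖u‖ < r → 0 < r → r < 1 →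
      -(hz L U g u).re ≤ (U - L) / 4 * C * (1 / r ^ 2 - 1) := by
    intro r hr hr0 hr1
    have hsub : closedBall (0 : ℂ) r ⊆ ball 0 1 := closedBall_subset_ball hr1
    have hdc : DiffContOnCl ℂ (fun v => exp (-(hz L U g v))) (ball 0 r) := by
      apply DifferentiableOn.diffContOnCl
      rw [closure_ball _ hr0.ne']
      exact (hdd.mono hsub).neg.cexp
    have hb := Complex.norm_le_of_forall_mem_frontier_norm_le (isBounded_ball) hdc
      (C := Real.exp ((U - L) / 4 * C * (1 / r ^ 2 - 1))) (by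
        intro z hz
        rw [frontier_ball _ hr0.ne'] at hz
        have hzr : ‖z‖ = r := by simpa using hz
        have hz0 : z ≠ 0 := by
          intro h
          rw [h, norm_zero] at hzr
          linarith
        rw [Complex.norm_exp, Real.exp_le_exp, neg_re]
        have := hz_re_bound hLU hC him hconj hz0 (by rw [hzr]; exact hr1)
        rw [normSq_eq_norm_sq, hzr] at this
        linarith) (z := u) (by
        rw [closure_ball _ hr0.ne']
        simpa using hr.le)
    rw [Complex.norm_exp, Real.exp_le_exp, neg_re] at hb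
    exact hb
  have hlim2 : Tendsto (fun r : ℝ => (U - L) / 4 * C * (1 / r ^ 2 - 1)) (𝓝[<] 1) (𝓝 0) := by
    have hc : ContinuousAt (fun r : ℝ => (U - L) / 4 * C * (1 / r ^ 2 - 1)) 1 := by
      fun_prop (disch := norm_num)
    have h1 := hc.tendsto.mono_left (nhdsWithin_le_nhds (s := Iio 1))
    simpa using h1
  have h1 : -(hz L U g u).re ≤ 0 := by
    apply ge_of_tendsto hlim2
    have hm : max ‖u‖ (1 / 2) < 1 := max_lt hu1 (by norm_num)
    filter_upwards [Ioo_mem_nhdsLT hm] with r hr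
    have h2 : ‖u‖ < r := lt_of_le_of_lt (le_max_left _ _) hr.1
    have h3 : 1 / 2 < r := lt_of_le_of_lt (le_max_right _ _) hr.1
    exact key r h2 (by linarith) hr.2
  linarith

theorem exists_measure {L U : ℝ} (hLU : L < U) {g : ℂ → ℂ}
    (hd : DifferentiableOn ℂ g (Slit L U)ᶜ)
    (hlim : Tendsto (fun z => z * g z) (Bornology.cobounded ℂ) (𝓝 1)) {C : ℝ}
    (hC : ∀ z ∉ Slit L U, ‖g z‖ ≤ C) (him : ∀ z : ℂ, 0 < z.im → (g z).im ≤ 0)
    (hconj : ∀ z ∉ Slit L U, g ((starRingEnd ℂ) z) = (starRingEnd ℂ) (g z)) :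
    ∃ μ : Measure ℝ, IsProbabilityMeasure μ ∧ μ (Icc L U)ᶜ = 0 ∧
      ∀ z ∉ Slit L U, cauchyT μ z = g z := by
  obtain ⟨σ, hσ, hrep⟩ := herglotz (hz_diff hLU hd hlim)
    (fun u hu => hz_re_nonneg hLU hd hlim hC him hconj hu) (if_pos rfl)
  set f : ℝ → ℝ := fun θ => (L + U) / 2 + (U - L) / 2 * Real.cos θ with hf
  have hfc : Continuous f := by fun_prop
  refine ⟨σ.map f, Measure.isProbabilityMeasure_map hfc.aemeasurable, ?_, ?_⟩
  · rw [Measure.map_apply hfc.measurable measurableSet_Icc.compl]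
    have : f ⁻¹' (Icc L U)ᶜ = ∅ := by
      ext θ
      simp only [mem_preimage, mem_compl_iff, mem_Icc, mem_empty_iff_false, iff_false, not_not, hf]
      have h1 := Real.neg_one_le_cos θ
      have h2 := Real.cos_le_one θ
      constructor <;> nlinarith
    rw [this, measure_empty]
  · intro z hzs
    obtain ⟨u, hu0, hu1, rfl⟩ := jk_surj hLU hzs
    have hub : u ∈ ball (0 : ℂ) 1 := by simpa using hu1
    have hub' : (starRingEnd ℂ) u ∈ ball (0 : ℂ) 1 := by simpa using hu1
    have hu1' : ‖(starRingEnd ℂ) u‖ < 1 := by simpa using hu1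
    have e1 := hrep u hub
    have e2 := hrep _ hub'
    rw [hz_conj hLU hconj hu1] at e2
    have e3 : hz L U g u = ∫ θ, (starRingEnd ℂ) (ker ((starRingEnd ℂ) u) θ) ∂σ := by
      rw [integral_conj, ← e2, Complex.conj_conj]
    have hik : Integrable (ker u) σ :=
      Integrable.of_bound (continuous_ker hu1).aestronglyMeasurable _
        (Eventually.of_forall (norm_ker_le hu1))
    have hik2 : Integrable (fun θ => (starRingEnd ℂ) (ker ((starRingEnd ℂ) u) θ)) σ := by
      apply Integrable.of_bound (C := 2 / (1 - ‖(starRingEnd ℂ) u‖))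
      · exact (Complex.continuous_conj.comp (continuous_ker hu1')).aestronglyMeasurable
      · apply Eventually.of_forall
        intro θ
        rw [RCLike.norm_conj]
        exact norm_ker_le hu1' θ
    have e4 : 2 * hz L U g u = ∫ θ, (ker u θ + (starRingEnd ℂ) (ker ((starRingEnd ℂ) u) θ)) ∂σ := by
      rw [integral_add hik hik2, ← e1, ← e3]
      ring
    unfold cauchyT
    rw [integral_map hfc.aemeasurable (by
      apply Measurable.aestronglyMeasurable
      fun_prop)]
    have hu2 : 1 - u ^ 2 ≠ 0 := by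
      intro h
      have h1 : u ^ 2 = 1 := (sub_eq_zero.mp h).symm
      have h2 : ‖u‖ ^ 2 = 1 := by rw [← norm_pow, h1, norm_one]
      have := norm_nonneg u
      nlinarith
    have hdd : (((U - L) / 4 : ℝ) : ℂ) ≠ 0 := by
      have : (U - L) / 4 ≠ 0 := by
        have : 0 < U - L := by linarith
        positivity
      exact_mod_cast this
    have hpt : ∀ θ : ℝ, (jk L U u - (f θ : ℂ))⁻¹ =
        (u / (2 * (((U - L) / 4 : ℝ) : ℂ) * (1 - u ^ 2))) *
          (ker u θ + (starRingEnd ℂ) (ker ((starRingEnd ℂ) u) θ)) := by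
      intro θ
      have hee : exp (θ * I) * exp (-(θ * I)) = 1 := by
        rw [← Complex.exp_add, add_neg_cancel, Complex.exp_zero]
      have hcos : (Real.cos θ : ℂ) = (exp (θ * I) + exp (-(θ * I))) / 2 := by
        rw [Complex.ofReal_cos, Complex.cos, neg_mul]
      have hconjexp : (starRingEnd ℂ) (exp (θ * I)) = exp (-(θ * I)) := by
        rw [← Complex.exp_conj]
        simp
      have hke : (starRingEnd ℂ) (ker ((starRingEnd ℂ) u) θ) =
          (exp (-(θ * I)) + u) / (exp (-(θ * I)) - u) := by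
        unfold ker
        rw [map_div₀, map_add, map_sub, hconjexp, Complex.conj_conj]
      have hd1 := exp_sub_ne hu1 θ
      have hd2 : exp (-(θ * I)) - u ≠ 0 := by
        have := exp_sub_ne hu1 (-θ)
        push_cast at this
        rwa [neg_mul] at this
      rw [hke]
      unfold ker
      have hfθ : (f θ : ℂ) = (((L + U) / 2 : ℝ) : ℂ) +
          (((U - L) / 4 : ℝ) : ℂ) * (exp (θ * I) + exp (-(θ * I))) := by
        simp only [hf]
        push_cast
        rw [← Complex.ofReal_cos, hcos]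
        ring
      rw [hfθ]
      unfold jk
      generalize exp (θ * I) = e at *
      generalize exp (-(θ * I)) = e' at *
      generalize (((U - L) / 4 : ℝ) : ℂ) = d at *
      generalize (((L + U) / 2 : ℝ) : ℂ) = c at *
      have h1 : c + d * (u + u⁻¹) - (c + d * (e + e')) = d * ((e - u) * (e' - u)) / u := by
        field_simp
        linear_combination (-d) * hee
      rw [h1]
      have h2 : (e + u) / (e - u) + (e' + u) / (e' - u) = 2 * (1 - u ^ 2) / ((e - u) * (e' - u)) := by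
        rw [div_add_div _ _ hd1 hd2]
        congr 1
        linear_combination 2 * hee
      rw [h2]
      field_simp
    simp only [hpt]
    rw [integral_const_mul, ← e4, hz_ne hu0]
    field_simp

end Pool.Agent.R951.FM
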