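import Mathlib
import Pool.Agent.R951.FM.Meas2

set_option autoImplicit false

open MeasureTheory Filter Topology Set Complex Metric

namespace Pool.Agent.R951.FM

theorem isBounded_Slit (L U : ℝ) : Bornology.IsBounded (Slit L U) := by
  rw [isBounded_iff_subset_closedBall (0 : ℂ)]
  refine ⟨max |L| |U|, ?_⟩
  rintro z ⟨h1, h2, h3⟩
  rw [mem_closedBall, dist_zero_right]
  have : z = (z.re : ℂ) := by
    apply Complex.ext <;> simp [h1]
  rw [this, Complex.norm_real, Real.norm_eq_abs]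
  exact abs_le_max_abs_abs h2 h3

theorem exists_measure_unif {L U : ℝ} (hLU : L < U) {D : Set ℂ} {ζ G : ℂ → ℂ}
    (hD : IsOpen D)
    (hζ : ∀ X ∈ D, X ≠ 0 → ∃ d : ℂ, d ≠ 0 ∧ HasStrictDerivAt ζ d X)
    (hG : DifferentiableOn ℂ G D)
    (huniq : ∀ X ∈ D, ∀ Y ∈ D, X ≠ 0 → Y ≠ 0 → ζ X = ζ Y → X = Y)
    (hex : ∀ z ∉ Slit L U, ∃ X ∈ D, X ≠ 0 ∧ ζ X = z)
    {C : ℝ} (hC : ∀ X ∈ D, ‖G X‖ ≤ C)
    (hsgn : ∀ X ∈ D, X ≠ 0 → 0 < (ζ X).im → (G X).im ≤ 0)
    (hDc : ∀ X ∈ D, (starRingEnd ℂ) X ∈ D)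
    (hζc : ∀ X, ζ ((starRingEnd ℂ) X) = (starRingEnd ℂ) (ζ X))
    (hGc : ∀ X, G ((starRingEnd ℂ) X) = (starRingEnd ℂ) (G X))
    {B : ℝ} (hB : ∀ X ∈ D, X ≠ 0 → ‖X‖ * ‖ζ X‖ ≤ B)
    (hprod : Tendsto (fun X => ζ X * G X) (𝓝[≠] 0) (𝓝 1)) :
    ∃ μ : Measure ℝ, IsProbabilityMeasure μ ∧ μ (Icc L U)ᶜ = 0 ∧
      ∀ X ∈ D, X ≠ 0 → ζ X ∉ Slit L U → cauchyT μ (ζ X) = G X := by
  choose! Xf hXD hX0 hXz using hex
  have hcont : ∀ z ∉ Slit L U, ContinuousAt Xf z := by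
    intro z hz
    obtain ⟨d, hd, hs⟩ := hζ _ (hXD z hz) (hX0 z hz)
    have hmap := hs.map_nhds_eq hd
    rw [hXz z hz] at hmap
    rw [ContinuousAt, tendsto_def]
    intro N hN
    have hN' : N ∩ (D ∩ {X | X ≠ 0}) ∈ 𝓝 (Xf z) :=
      inter_mem hN (inter_mem (hD.mem_nhds (hXD z hz)) (isOpen_ne.mem_nhds (hX0 z hz)))
    have h1 : ζ '' (N ∩ (D ∩ {X | X ≠ 0})) ∈ 𝓝 z := by
      rw [← hmap]
      exact image_mem_map hN'
    filter_upwards [h1, (isClosed_Slit L U).isOpen_compl.mem_nhds hz] with y hy hys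
    obtain ⟨Y, ⟨hYN, hYD, hY0⟩, rfl⟩ := hy
    have : Xf (ζ Y) = Y := huniq _ (hXD _ hys) _ hYD (hX0 _ hys) hY0 (hXz _ hys)
    rw [mem_preimage, this]
    exact hYN
  have hdiff : ∀ z ∉ Slit L U, DifferentiableAt ℂ Xf z := by
    intro z hz
    obtain ⟨d, hd, hs⟩ := hζ _ (hXD z hz) (hX0 z hz)
    have := HasDerivAt.of_local_left_inverse (hcont z hz) hs.hasDerivAt hd (by
      filter_upwards [(isClosed_Slit L U).isOpen_compl.mem_nhds hz] with y hy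
      exact hXz y hy)
    exact this.differentiableAt
  have hXc : ∀ z ∉ Slit L U, Xf ((starRingEnd ℂ) z) = (starRingEnd ℂ) (Xf z) := by
    intro z hz
    have hz' : (starRingEnd ℂ) z ∉ Slit L U := by
      rintro ⟨h1, h2, h3⟩
      apply hz
      refine ⟨?_, ?_, ?_⟩
      · simpa using h1
      · simpa using h2
      · simpa using h3
    apply huniq _ (hXD _ hz') _ (hDc _ (hXD z hz)) (hX0 _ hz')
    · exact (map_ne_zero _).mpr (hX0 z hz)
    · rw [hXz _ hz', hζc, hXz z hz]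
  have hev : ∀ᶠ z in Bornology.cobounded ℂ, z ∉ Slit L U := isBounded_Slit L U
  have hev0 : ∀ᶠ z in Bornology.cobounded ℂ, z ≠ 0 := by
    have h2 : ∀ᶠ z in Bornology.cobounded ℂ, z ∉ ({0} : Set ℂ) :=
      Bornology.isBounded_singleton
    filter_upwards [h2] with z hz
    simpa using hz
  have hX : Tendsto Xf (Bornology.cobounded ℂ) (𝓝[≠] 0) := by
    apply tendsto_nhdsWithin_of_tendsto_nhds_of_eventually_within
    · rw [tendsto_zero_iff_norm_tendsto_zero]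
      have h1 : Tendsto (fun z : ℂ => B * ‖z‖⁻¹) (Bornology.cobounded ℂ) (𝓝 0) := by
        have h2 : Tendsto (fun z : ℂ => ‖z‖⁻¹) (Bornology.cobounded ℂ) (𝓝 0) :=
          tendsto_inv_atTop_zero.comp tendsto_norm_cobounded_atTop
        simpa using h2.const_mul B
      refine squeeze_zero' (Eventually.of_forall fun z => norm_nonneg _) ?_ h1
      filter_upwards [hev, hev0] with z hz hz0
      have h2 := hB _ (hXD z hz) (hX0 z hz)
      rw [hXz z hz] at h2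
      have h3 : 0 < ‖z‖ := norm_pos_iff.mpr hz0
      rw [← div_eq_mul_inv, le_div_iff₀ h3]
      exact h2
    · filter_upwards [hev] with z hz
      exact hX0 z hz
  obtain ⟨μ, h1, h2, h3⟩ := exists_measure hLU (g := fun z => G (Xf z))
    (by
      intro z hz
      have hz' : z ∉ Slit L U := hz
      apply DifferentiableAt.differentiableWithinAt
      exact DifferentiableAt.comp z (hG.differentiableAt (hD.mem_nhds (hXD z hz'))) (hdiff z hz'))
    (by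
      have := hprod.comp hX
      refine this.congr' ?_
      filter_upwards [hev] with z hz
      simp only [Function.comp_apply]
      rw [hXz z hz])
    (C := C) (fun z hz => hC _ (hXD z hz))
    (by
      intro z hz
      have hz' : z ∉ Slit L U := by
        rintro ⟨h, _⟩
        linarith
      apply hsgn _ (hXD z hz') (hX0 z hz')
      rw [hXz z hz']
      exact hz)
    (by
      intro z hz
      rw [hXc z hz, hGc])
  refine ⟨μ, h1, h2, ?_⟩
  intro X hXD' hX0' hXs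
  rw [h3 _ hXs]
  rw [huniq _ (hXD _ hXs) _ hXD' (hX0 _ hXs) hX0' (hXz _ hXs)]

theorem ev_cauchy {L U : ℝ} {D : Set ℂ} {ζ G : ℂ → ℂ} {μ : Measure ℝ} (hD : IsOpen D)
    (h0 : (0 : ℂ) ∈ D) (hG : ContinuousAt G 0) (hG0 : G 0 = 0)
    (hprod : Tendsto (fun X => ζ X * G X) (𝓝[≠] 0) (𝓝 1))
    (hμ : ∀ X ∈ D, X ≠ 0 → ζ X ∉ Slit L U → cauchyT μ (ζ X) = G X) :
    ∀ᶠ X in 𝓝[≠] (0 : ℂ), cauchyT μ (ζ X) = G X := by
  obtain ⟨m, hm⟩ := (isBounded_iff_subset_closedBall (0 : ℂ)).mp (isBounded_Slit L U)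
  have h1 : ∀ᶠ X in 𝓝[≠] (0 : ℂ), 1 / 2 < ‖ζ X * G X‖ := by
    have := hprod.norm
    rw [norm_one] at this
    exact this.eventually (lt_mem_nhds (by norm_num))
  have h2 : ∀ᶠ X in 𝓝[≠] (0 : ℂ), (|m| + 1) * ‖G X‖ < 1 / 2 := by
    have h3 : Tendsto (fun X => (|m| + 1) * ‖G X‖) (𝓝[≠] 0) (𝓝 0) := by
      have h4 := (hG.tendsto.mono_left (nhdsWithin_le_nhds (s := {0}ᶜ))).norm.const_mul (|m| + 1)
      simpa [hG0] using h4
    exact h3.eventually (gt_mem_nhds (by norm_num))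
  filter_upwards [h1, h2, self_mem_nhdsWithin, nhdsWithin_le_nhds (hD.mem_nhds h0)] with X h1 h2 hX hXD
  apply hμ X hXD hX
  intro hs
  have h3 : ‖ζ X‖ ≤ m := by simpa using hm hs
  rw [norm_mul] at h1
  have h4 : ‖ζ X‖ * ‖G X‖ ≤ (|m| + 1) * ‖G X‖ :=
    mul_le_mul_of_nonneg_right (by linarith [le_abs_self m]) (norm_nonneg _)
  linarith

end Pool.Agent.R951.FM
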