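import Mathlib
import Pool.Agent.R951.FM.Unif

set_option autoImplicit false

open MeasureTheory Filter Topology Set Complex Metric

namespace Pool.Agent.R951.FM

/-- parametrization of `z` for the law `μ_t` -/
noncomputable def zm (t : ℝ) (X : ℂ) : ℂ := (t : ℂ) * (10 + X) + (X ^ 2 + 1) / (2 * X)

/-- the value of the Cauchy transform of `μ_t` at `zm t X` -/
noncomputable def gm (X : ℂ) : ℂ := 2 * X / (X ^ 2 + 1)

def Dm (t : ℝ) : Set ℂ := {X | (2 * t + 1) * normSq X < 1}

theorem zm_eq (t : ℝ) {X : ℂ} (hX : X ≠ 0) :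
    zm t X = 10 * (t : ℂ) + ((t : ℂ) + 1 / 2) * X + X⁻¹ / 2 := by
  unfold zm
  field_simp
  ring

theorem normSq_lt_of_Dm {t : ℝ} (ht : 0 < t) {X : ℂ} (hX : X ∈ Dm t) : normSq X < 1 := by
  have h : (2 * t + 1) * normSq X < 1 := hX
  have := normSq_nonneg X
  nlinarith

theorem sq_add_one_ne {X : ℂ} (h : normSq X < 1) : X ^ 2 + 1 ≠ 0 := by
  intro h0
  have h1 : X ^ 2 = -1 := by linear_combination h0
  have h2 : normSq (X ^ 2) = 1 := by rw [h1]; simp
  rw [map_pow] at h2
  have := normSq_nonneg X
  nlinarith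

theorem normSq_sq_add_one (X : ℂ) :
    normSq (X ^ 2 + 1) = (normSq X - 1) ^ 2 + 4 * X.re ^ 2 := by
  rw [normSq_apply, normSq_apply]
  simp only [add_re, add_im, one_re, one_im, pow_two, mul_re, mul_im]
  ring

theorem fam1 {t : ℝ} (ht : 0 < t) : ∃ μ : Measure ℝ, IsProbabilityMeasure μ ∧
    μ (Icc (10 * t - √(2 * t + 1)) (10 * t + √(2 * t + 1)))ᶜ = 0 ∧
    ∀ᶠ X in 𝓝[≠] (0 : ℂ), cauchyT μ (zm t X) = gm X := by
  set s : ℝ := √(2 * t + 1) with hs
  have hs2 : s ^ 2 = 2 * t + 1 := Real.sq_sqrt (by linarith)
  have hs0 : 0 < s := Real.sqrt_pos.mpr (by linarith)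
  have hLU : 10 * t - s < 10 * t + s := by linarith
  have hopen : IsOpen (Dm t) := by
    apply isOpen_lt _ continuous_const
    exact continuous_const.mul continuous_normSq
  have hB' : ((2 * (t : ℂ)) + 1) ≠ 0 := by
    have : (2 * t + 1 : ℝ) ≠ 0 := by linarith
    exact_mod_cast this
  have hGd : DifferentiableOn ℂ gm (Dm t) := by
    intro X hX
    apply DifferentiableAt.differentiableWithinAt
    unfold gm
    have := sq_add_one_ne (normSq_lt_of_Dm ht hX)
    fun_prop (disch := exact this)
  have h0D : (0 : ℂ) ∈ Dm t := by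
    show (2 * t + 1) * normSq 0 < 1
    simp
  have hprod : Tendsto (fun X => zm t X * gm X) (𝓝[≠] 0) (𝓝 1) := by
    have hc : ContinuousAt (fun X : ℂ => 1 + (t : ℂ) * (10 + X) * (2 * X) / (X ^ 2 + 1)) 0 := by
      apply ContinuousAt.add continuousAt_const
      apply ContinuousAt.div (by fun_prop) (by fun_prop)
      simp
    have h1 := hc.tendsto.mono_left (nhdsWithin_le_nhds (s := {0}ᶜ))
    simp only [mul_zero, ne_eq, OfNat.ofNat_ne_zero, not_false_eq_true, zero_pow, zero_add,
      div_one, add_zero] at h1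
    refine h1.congr' ?_
    have hD' : ∀ᶠ X : ℂ in 𝓝[≠] 0, X ∈ Dm t := nhdsWithin_le_nhds (hopen.mem_nhds h0D)
    filter_upwards [self_mem_nhdsWithin, hD'] with X hX hXD
    have hX0 : X ≠ 0 := hX
    have := sq_add_one_ne (normSq_lt_of_Dm ht hXD)
    unfold zm gm
    field_simp
    ring
  have hprodXY : ∀ X ∈ Dm t, ∀ Y ∈ Dm t, (2 * (t : ℂ) + 1) * (X * Y) ≠ 1 := by
    intro X hX Y hY h
    have h1 : normSq ((2 * (t : ℂ) + 1) * (X * Y)) = 1 := by rw [h]; simp
    have h2 : normSq (2 * (t : ℂ) + 1) = (2 * t + 1) ^ 2 := by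
      have : (2 * (t : ℂ) + 1) = ((2 * t + 1 : ℝ) : ℂ) := by push_cast; ring
      rw [this, normSq_ofReal]
      ring
    rw [map_mul, map_mul, h2] at h1
    have hX' : (2 * t + 1) * normSq X < 1 := hX
    have hY' : (2 * t + 1) * normSq Y < 1 := hY
    have h3 := normSq_nonneg X
    have h4 := normSq_nonneg Y
    have h5 : 0 ≤ (2 * t + 1) * normSq X := by positivity
    have h6 : 0 ≤ (2 * t + 1) * normSq Y := by positivity
    have h7 : ((2 * t + 1) * normSq X) * ((2 * t + 1) * normSq Y) < 1 := by nlinarith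
    nlinarith
  obtain ⟨μ, h1, h2, h3⟩ := exists_measure_unif (L := 10 * t - s) (U := 10 * t + s) hLU
    (D := Dm t) (ζ := zm t) (G := gm) hopen
    (by
      intro X hX hX0
      refine ⟨((t : ℂ) + 1 / 2) - (X ^ 2)⁻¹ / 2, ?_, ?_⟩
      · intro h
        apply hprodXY X hX X hX
        field_simp at h
        linear_combination h
      · have h1 : HasStrictDerivAt (fun X : ℂ => 10 * (t : ℂ) + ((t : ℂ) + 1 / 2) * X + X⁻¹ / 2)
            (0 + ((t : ℂ) + 1 / 2) * 1 + (-(X ^ 2)⁻¹) / 2) X := by
          apply HasStrictDerivAt.add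
          · apply HasStrictDerivAt.add
            · exact hasStrictDerivAt_const _ _
            · exact (hasStrictDerivAt_id X).const_mul _
          · exact (hasStrictDerivAt_inv hX0).div_const 2
        have h2 : (0 + ((t : ℂ) + 1 / 2) * 1 + (-(X ^ 2)⁻¹) / 2) =
            ((t : ℂ) + 1 / 2) - (X ^ 2)⁻¹ / 2 := by ring
        rw [h2] at h1
        apply h1.congr_of_eventuallyEq
        filter_upwards [isOpen_ne.mem_nhds hX0] with Y hY
        exact (zm_eq t hY).symm)
    hGd
    (by
      intro X hX Y hY hX0 hY0 h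
      by_contra hne
      rw [zm_eq t hX0, zm_eq t hY0] at h
      apply hprodXY X hX Y hY
      have hsub : X - Y ≠ 0 := sub_ne_zero.mpr hne
      apply mul_left_cancel₀ hsub
      field_simp at h
      linear_combination h)
    (by
      intro z hz
      obtain ⟨r, hr⟩ := IsAlgClosed.exists_pow_nat_eq ((10 * (t : ℂ) - z) ^ 2 - (2 * (t : ℂ) + 1))
        (n := 2) (by norm_num)
      set X : ℂ := (z - 10 * t + r) / (2 * (t : ℂ) + 1) with hX
      have hquad : (2 * (t : ℂ) + 1) * X ^ 2 + 2 * (10 * (t : ℂ) - z) * X + 1 = 0 := by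
        rw [hX]
        field_simp
        linear_combination hr
      have hX0 : X ≠ 0 := by
        intro h
        rw [h] at hquad
        norm_num at hquad
      have hzX : zm t X = z := by
        unfold zm
        field_simp
        linear_combination hquad
      have hN0 : 0 < normSq X := normSq_pos.mpr hX0
      rcases lt_trichotomy ((2 * t + 1) * normSq X) 1 with h | h | h
      · exact ⟨X, h, hX0, hzX⟩
      · exfalso
        apply hz
        have hinv : X⁻¹ = (2 * (t : ℂ) + 1) * (starRingEnd ℂ) X := by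
          have h5 : ((2 * (t : ℂ) + 1) * (starRingEnd ℂ) X) * X = 1 := by
            rw [mul_assoc, ← Complex.normSq_eq_conj_mul_self]
            exact_mod_cast h
          exact (eq_inv_of_mul_eq_one_left h5).symm
        rw [← hzX, zm_eq t hX0, hinv]
        have he : 10 * (t : ℂ) + ((t : ℂ) + 1 / 2) * X + (2 * (t : ℂ) + 1) * (starRingEnd ℂ) X / 2 =
            ((10 * t + (2 * t + 1) * X.re : ℝ) : ℂ) := by
          have h6 := Complex.add_conj X
          push_cast at h6 ⊢
          linear_combination ((t : ℂ) + 1 / 2) * h6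
        rw [he]
        have h7 : X.re ^ 2 ≤ normSq X := by
          rw [normSq_apply]
          nlinarith [sq_nonneg X.im]
        have h8 : ((2 * t + 1) * X.re) ^ 2 ≤ s ^ 2 := by
          rw [hs2]
          have : (2 * t + 1) * X.re ^ 2 ≤ 1 := by
            calc (2 * t + 1) * X.re ^ 2 ≤ (2 * t + 1) * normSq X :=
                  mul_le_mul_of_nonneg_left h7 (by linarith)
              _ = 1 := h
          nlinarith
        have h9 := abs_le_of_sq_le_sq' h8 hs0.le
        refine ⟨?_, ?_, ?_⟩
        · exact ofReal_im _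
        · rw [ofReal_re]
          linarith [h9.1]
        · rw [ofReal_re]
          linarith [h9.2]
      · have hY0 : ((2 * (t : ℂ) + 1) * X)⁻¹ ≠ 0 := inv_ne_zero (mul_ne_zero hB' hX0)
        refine ⟨((2 * (t : ℂ) + 1) * X)⁻¹, ?_, hY0, ?_⟩
        · show (2 * t + 1) * normSq (((2 * (t : ℂ) + 1) * X)⁻¹) < 1
          rw [map_inv₀, map_mul]
          have h2 : normSq (2 * (t : ℂ) + 1) = (2 * t + 1) ^ 2 := by
            have : (2 * (t : ℂ) + 1) = ((2 * t + 1 : ℝ) : ℂ) := by push_cast; ring
            rw [this, normSq_ofReal]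
            ring
          rw [h2, ← div_eq_mul_inv, div_lt_one (by positivity)]
          nlinarith
        · rw [← hzX, zm_eq t hY0, zm_eq t hX0, inv_inv]
          have hb : (t : ℂ) + 1 / 2 = (2 * (t : ℂ) + 1) / 2 := by ring
          rw [hb]
          clear_value X
          clear hquad hX hr
          generalize 2 * (t : ℂ) + 1 = b at *
          field_simp
          ring)
    (C := 2 * (2 * t + 1) / (2 * t))
    (by
      intro X hX
      have hN := normSq_lt_of_Dm ht hX
      have hN' : (2 * t + 1) * normSq X < 1 := hX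
      unfold gm
      rw [norm_div, norm_mul]
      have h1 : 1 - normSq X ≤ ‖X ^ 2 + 1‖ := by
        rw [normSq_eq_norm_sq, ← norm_pow]
        have := norm_sub_norm_le (1 : ℂ) (-(X ^ 2))
        rw [norm_one, norm_neg] at this
        calc 1 - ‖X ^ 2‖ ≤ ‖1 - -(X ^ 2)‖ := this
          _ = ‖X ^ 2 + 1‖ := by congr 1; ring
      have h2 : 2 * t / (2 * t + 1) ≤ 1 - normSq X := by
        rw [div_le_iff₀ (by linarith)]
        nlinarith
      have h3 : ‖X‖ ≤ 1 := by
        rw [normSq_eq_norm_sq] at hN
        have := norm_nonneg X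
        nlinarith
      have h4 : 0 < 2 * t / (2 * t + 1) := by positivity
      calc ‖(2 : ℂ)‖ * ‖X‖ / ‖X ^ 2 + 1‖ ≤ 2 / (2 * t / (2 * t + 1)) := by
            apply div_le_div₀ (by norm_num) _ h4 (h2.trans h1)
            rw [Complex.norm_ofNat]
            linarith
        _ = 2 * (2 * t + 1) / (2 * t) := by field_simp)
    (by
      intro X hX hX0 him
      have hN := normSq_lt_of_Dm ht hX
      have hN' : (2 * t + 1) * normSq X < 1 := hX
      have hN0 : 0 < normSq X := normSq_pos.mpr hX0
      have him' : (zm t X).im = X.im * ((2 * t + 1) * normSq X - 1) / (2 * normSq X) := by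
        rw [zm_eq t hX0]
        have : (10 * (t : ℂ) + ((t : ℂ) + 1 / 2) * X + X⁻¹ / 2) =
          ((10 * t : ℝ) : ℂ) + ((t + 1 / 2 : ℝ) : ℂ) * X + ((1 / 2 : ℝ) : ℂ) * X⁻¹ := by
          push_cast
          ring
        rw [this]
        simp only [add_im, ofReal_im, mul_im, ofReal_re, zero_mul, inv_im, add_zero, zero_add]
        field_simp
        ring
      rw [him'] at him
      have hy : X.im < 0 := by
        by_contra hcon
        push Not at hcon
        have : X.im * ((2 * t + 1) * normSq X - 1) / (2 * normSq X) ≤ 0 := by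
          apply div_nonpos_of_nonpos_of_nonneg _ (by positivity)
          exact mul_nonpos_of_nonneg_of_nonpos hcon (by linarith)
        linarith
      have hg : gm X = ((1 / 2 : ℝ) * (X + X⁻¹))⁻¹ := by
        unfold gm
        have := sq_add_one_ne hN
        have h5 : X + X⁻¹ ≠ 0 := by
          intro h
          apply this
          field_simp at h
          simpa using h
        push_cast
        field_simp
      rw [hg, inv_im]
      apply div_nonpos_of_nonpos_of_nonneg _ (normSq_nonneg _)
      simp only [mul_im, ofReal_re, add_im, inv_im, ofReal_im, zero_mul, add_zero]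
      have : X.im + -X.im / normSq X = X.im * (normSq X - 1) / normSq X := by
        field_simp
        ring
      rw [this]
      have h6 : 0 ≤ X.im * (normSq X - 1) / normSq X :=
        div_nonneg (mul_nonneg_of_nonpos_of_nonpos hy.le (by linarith)) hN0.le
      linarith)
    (by
      intro X hX
      show (2 * t + 1) * normSq ((starRingEnd ℂ) X) < 1
      rw [normSq_conj]
      exact hX)
    (by
      intro X
      unfold zm
      simp only [map_add, map_mul, map_div₀, map_pow, map_one, Complex.conj_ofReal, map_ofNat])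
    (by
      intro X
      unfold gm
      simp only [map_add, map_mul, map_div₀, map_pow, map_one, map_ofNat])
    (B := 11 * t + 1)
    (by
      intro X hX hX0
      have hN := normSq_lt_of_Dm ht hX
      have hN' : (2 * t + 1) * normSq X < 1 := hX
      have h3 : ‖X‖ ≤ 1 := by
        rw [normSq_eq_norm_sq] at hN
        have := norm_nonneg X
        nlinarith
      rw [← norm_mul]
      have he : X * zm t X = (t : ℂ) * (10 + X) * X + (X ^ 2 + 1) / 2 := by
        unfold zm
        field_simp
      rw [he]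
      have h4 : ‖(t : ℂ) * (10 + X) * X‖ ≤ 11 * t := by
        rw [norm_mul, norm_mul, Complex.norm_real, Real.norm_eq_abs, abs_of_pos ht]
        have h5 : ‖10 + X‖ ≤ 11 := by
          have := norm_add_le (10 : ℂ) X
          rw [Complex.norm_ofNat] at this
          linarith
        have h6 := norm_nonneg X
        have h7 := norm_nonneg (10 + X)
        calc t * ‖10 + X‖ * ‖X‖ ≤ t * 11 * 1 := by gcongr
          _ = 11 * t := by ring
      have h5 : ‖(X ^ 2 + 1) / 2‖ ≤ 1 := by
        rw [norm_div, Complex.norm_ofNat, div_le_one (by norm_num)]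
        have := norm_add_le (X ^ 2) 1
        rw [norm_pow, norm_one] at this
        have h6 := norm_nonneg X
        nlinarith
      exact (norm_add_le _ _).trans (add_le_add h4 h5))
    hprod
  exact ⟨μ, h1, h2, ev_cauchy hopen h0D (hGd.differentiableAt (hopen.mem_nhds h0D)).continuousAt
    (by simp [gm]) hprod h3⟩

end Pool.Agent.R951.FM
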