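import Mathlib
import Pool.Agent.R951.FM.Fam1

set_option autoImplicit false

open MeasureTheory Filter Topology Set Complex Metric

namespace Pool.Agent.R951.FM

/-- parametrization of `z` for the law `ν_q` -/
noncomputable def zn (q : ℝ) (X : ℂ) : ℂ :=
  (10 + X) * (X ^ 2 + 1) / (2 * X) + (q : ℂ) * (10 + X) ^ 2

/-- the value of the Cauchy transform of `ν_q` at `zn q X` -/
noncomputable def gn (X : ℂ) : ℂ := 2 * X / ((10 + X) * (X ^ 2 + 1))

def Dn (q : ℝ) : Set ℂ :=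
  {X | -10 / 3 < X.re ∧ normSq X * (2 * (1 + 2 * q) * X.re + 10 * (1 + 4 * q)) < 10}

theorem zn_eq (q : ℝ) {X : ℂ} (hX : X ≠ 0) :
    zn q X = (10 * X + 10 * X⁻¹ + X ^ 2 + 1) / 2 + (q : ℂ) * (10 + X) ^ 2 := by
  unfold zn
  field_simp
  ring

theorem zn_im (q : ℝ) {X : ℂ} (hX : X ≠ 0) :
    (zn q X).im = X.im * (normSq X * (2 * (1 + 2 * q) * X.re + 10 * (1 + 4 * q)) - 10) /
      (2 * normSq X) := by
  have hN : normSq X ≠ 0 := (normSq_pos.mpr hX).ne'
  rw [zn_eq q hX]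
  have : (10 * X + 10 * X⁻¹ + X ^ 2 + 1) / 2 + (q : ℂ) * (10 + X) ^ 2 =
      ((5 + 20 * q : ℝ) : ℂ) * X + ((5 : ℝ) : ℂ) * X⁻¹ + ((1 / 2 + q : ℝ) : ℂ) * (X * X) +
        ((1 / 2 + 100 * q : ℝ) : ℂ) := by
    push_cast
    ring
  rw [this]
  simp only [add_im, ofReal_im, mul_im, ofReal_re, zero_mul, inv_im, add_zero]
  field_simp
  ring

/-- the facts about a point of the domain -/
theorem Dn_facts {q : ℝ} (hq : 0 < q) {X : ℂ} (hX : X ∈ Dn q) :
    normSq X < 3 ∧ -2 < X.re ∧ X.re < 2 := by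
  obtain ⟨h1, h2⟩ := hX
  have hN := normSq_nonneg X
  have h3 : normSq X < 3 := by
    by_contra hcon
    push Not at hcon
    have h4 : 10 / 3 < 2 * (1 + 2 * q) * X.re + 10 * (1 + 4 * q) := by nlinarith
    nlinarith
  have h4 : X.re ^ 2 < 4 := by
    have := normSq_apply X
    nlinarith [sq_nonneg X.im]
  exact ⟨h3, by nlinarith, by nlinarith⟩

/-- an upper root cannot be small -/
theorem upper_small {q : ℝ} (hq : 0 < q) {X Y Z : ℂ}
    (hX : 100 / 9 ≤ normSq X) (hY : 100 / 9 ≤ normSq Y)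
    (hprod : (1 + 2 * (q : ℂ)) * (X * Y * Z) = -10)
    (hZ : 10 < normSq Z * (2 * (1 + 2 * q) * Z.re + 10 * (1 + 4 * q))) : False := by
  have h1 : normSq ((1 + 2 * (q : ℂ)) * (X * Y * Z)) = 100 := by
    rw [hprod]
    simp [normSq_apply]
    norm_num
  have h2 : normSq (1 + 2 * (q : ℂ)) = (1 + 2 * q) ^ 2 := by
    have : (1 + 2 * (q : ℂ)) = ((1 + 2 * q : ℝ) : ℂ) := by push_cast; ring
    rw [this, normSq_ofReal]
    ring
  rw [map_mul, map_mul, map_mul, h2] at h1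
  set N := normSq Z with hN
  have hN0 : 0 ≤ N := normSq_nonneg Z
  have h3 : (1 + 2 * q) ^ 2 * N ≤ 81 / 100 := by
    have h4 : 10000 / 81 ≤ normSq X * normSq Y := by nlinarith
    have h5 : 0 ≤ (1 + 2 * q) ^ 2 * N := by positivity
    nlinarith
  have hB : 1 ≤ 1 + 2 * q := by linarith
  have hzre : Z.re ^ 2 ≤ N := by
    rw [hN, normSq_apply]
    nlinarith [sq_nonneg Z.im]
  -- (1+2q) |Z.re| ≤ 0.9
  have h6 : ((1 + 2 * q) * Z.re) ^ 2 ≤ (9 / 10) ^ 2 := by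
    have : ((1 + 2 * q) * Z.re) ^ 2 = (1 + 2 * q) ^ 2 * Z.re ^ 2 := by ring
    rw [this]
    nlinarith [sq_nonneg (1 + 2 * q)]
  have h7 := (abs_le_of_sq_le_sq' h6 (by norm_num)).2
  have h8 : N ≤ 81 / 100 := by nlinarith
  have h9 : N * (10 * (1 + 4 * q)) ≤ 81 / 10 := by nlinarith [sq_nonneg q]
  nlinarith

theorem one_lower {q : ℝ} (hq : 0 < q) {z X Y Z : ℂ} (hz : 0 < z.im)
    (hsum : (1 + 2 * (q : ℂ)) * (X + Y + Z) = -(10 * (1 + 4 * (q : ℂ))))
    (he2 : (1 + 2 * (q : ℂ)) * (X * Y + X * Z + Y * Z) = 1 + 200 * (q : ℂ) - 2 * z)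
    (hprod : (1 + 2 * (q : ℂ)) * (X * Y * Z) = -10)
    (hX : 100 / 9 ≤ normSq X) (hYi : 0 < Y.im) (hZi : 0 < Z.im)
    (hY : 10 < normSq Y * (2 * (1 + 2 * q) * Y.re + 10 * (1 + 4 * q)))
    (hZ : 10 < normSq Z * (2 * (1 + 2 * q) * Z.re + 10 * (1 + 4 * q))) : False := by
  have hB : (1 + 2 * (q : ℂ)) ≠ 0 := by
    have : (1 + 2 * q : ℝ) ≠ 0 := by linarith
    exact_mod_cast this
  have hX0 : X ≠ 0 := by
    intro h
    rw [h] at hprod
    norm_num at hprod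
  have hY0 : Y ≠ 0 := by
    intro h
    rw [h] at hprod
    norm_num at hprod
  have hZ0 : Z ≠ 0 := by
    intro h
    rw [h] at hprod
    norm_num at hprod
  -- sum of imaginary parts
  have hs : X.im + Y.im + Z.im = 0 := by
    have h1 : (1 + 2 * (q : ℂ)) * (X + Y + Z) = ((-(10 * (1 + 4 * q)) : ℝ) : ℂ) := by
      rw [hsum]; push_cast; ring
    have h2 : (1 + 2 * (q : ℂ)) = ((1 + 2 * q : ℝ) : ℂ) := by push_cast; ring
    rw [h2] at h1
    have h3 := congrArg Complex.im h1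
    simp only [mul_im, ofReal_re, ofReal_im, add_im, add_re, zero_mul, add_zero] at h3
    have h4 : (1 + 2 * q : ℝ) ≠ 0 := by linarith
    exact (mul_eq_zero.mp h3).resolve_left h4
  have hr : X.im / normSq X + Y.im / normSq Y + Z.im / normSq Z < 0 := by
    have h1 : X⁻¹ + Y⁻¹ + Z⁻¹ = -((1 + 200 * (q : ℂ) - 2 * z) / 10) := by
      rw [← he2]
      field_simp
      linear_combination (X * Y + X * Z + Y * Z) * hprod
    have h2 := congrArg Complex.im h1
    have h3 : (-((1 + 200 * (q : ℂ) - 2 * z) / 10)).im = z.im / 5 := by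
      have : -((1 + 200 * (q : ℂ) - 2 * z) / 10) =
          ((-(1 + 200 * q) / 10 : ℝ) : ℂ) + ((1 / 5 : ℝ) : ℂ) * z := by
        push_cast
        ring
      rw [this]
      simp only [add_im, ofReal_im, mul_im, ofReal_re, zero_mul, add_zero, zero_add]
      ring
    rw [h3] at h2
    simp only [add_im, inv_im] at h2
    have h4 : X.im / normSq X + Y.im / normSq Y + Z.im / normSq Z =
        -(-X.im / normSq X + -Y.im / normSq Y + -Z.im / normSq Z) := by ring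
    rw [h4, h2]
    linarith
  have hNX : 0 < normSq X := normSq_pos.mpr hX0
  have hNY : 0 < normSq Y := normSq_pos.mpr hY0
  have hNZ : 0 < normSq Z := normSq_pos.mpr hZ0
  by_cases hYX : normSq X ≤ normSq Y
  · exact upper_small hq hX (hX.trans hYX) hprod hZ
  · by_cases hZX : normSq X ≤ normSq Z
    · apply upper_small hq hX (hX.trans hZX) (Z := Y) _ hY
      rw [← hprod]
      ring
    · push Not at hYX hZX
      have h1 : Y.im / normSq X ≤ Y.im / normSq Y := div_le_div_of_nonneg_left hYi.le hNY hYX.le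
      have h2 : Z.im / normSq X ≤ Z.im / normSq Z := div_le_div_of_nonneg_left hZi.le hNZ hZX.le
      have h3 : X.im / normSq X + Y.im / normSq X + Z.im / normSq X = 0 := by
        rw [← add_div, ← add_div, hs, zero_div]
      linarith

theorem normSq_of_re {X : ℂ} (h : X.re ≤ -10 / 3) : 100 / 9 ≤ normSq X := by
  rw [normSq_apply]
  nlinarith [sq_nonneg X.im]

/-- the three roots -/
theorem three_roots (q : ℝ) (hq : 0 < q) (z : ℂ) : ∃ X Y Z : ℂ,
    (1 + 2 * (q : ℂ)) * (X + Y + Z) = -(10 * (1 + 4 * (q : ℂ))) ∧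
    (1 + 2 * (q : ℂ)) * (X * Y + X * Z + Y * Z) = 1 + 200 * (q : ℂ) - 2 * z ∧
    (1 + 2 * (q : ℂ)) * (X * Y * Z) = -10 := by
  set P : Cubic ℂ := ⟨1 + 2 * (q : ℂ), 10 * (1 + 4 * (q : ℂ)), 1 + 200 * (q : ℂ) - 2 * z, 10⟩ with hP
  have hB : (1 + 2 * (q : ℂ)) ≠ 0 := by
    have : (1 + 2 * q : ℝ) ≠ 0 := by linarith
    exact_mod_cast this
  have ha : P.a ≠ 0 := hB
  have hs : (P.toPoly.map (RingHom.id ℂ)).Splits := by
    exact IsAlgClosed.splits _
  obtain ⟨X, Y, Z, h3⟩ := (Cubic.splits_iff_roots_eq_three ha).mp hs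
  have hb := Cubic.b_eq_three_roots ha h3
  have hc := Cubic.c_eq_three_roots ha h3
  have hd := Cubic.d_eq_three_roots ha h3
  simp only [RingHom.id_apply, hP] at hb hc hd
  refine ⟨X, Y, Z, ?_, ?_, ?_⟩
  · linear_combination hb
  · linear_combination (-1 : ℂ) * hc
  · linear_combination hd

theorem root_zn {q : ℝ} {z X Y Z : ℂ}
    (hsum : (1 + 2 * (q : ℂ)) * (X + Y + Z) = -(10 * (1 + 4 * (q : ℂ))))
    (he2 : (1 + 2 * (q : ℂ)) * (X * Y + X * Z + Y * Z) = 1 + 200 * (q : ℂ) - 2 * z)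
    (hprod : (1 + 2 * (q : ℂ)) * (X * Y * Z) = -10) : X ≠ 0 ∧ zn q X = z := by
  have hX0 : X ≠ 0 := by
    intro h
    rw [h] at hprod
    norm_num at hprod
  refine ⟨hX0, ?_⟩
  unfold zn
  field_simp
  linear_combination X ^ 2 * hsum - X * he2 + hprod

end Pool.Agent.R951.FM
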