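import Mathlib
import Pool.Agent.R951.FM.Fam2

set_option autoImplicit false

open MeasureTheory Filter Topology Set Complex Metric

namespace Pool.Agent.R951.FM

theorem sum_im {q : ℝ} (hq : 0 < q) {X Y Z : ℂ}
    (hsum : (1 + 2 * (q : ℂ)) * (X + Y + Z) = -(10 * (1 + 4 * (q : ℂ)))) :
    X.im + Y.im + Z.im = 0 ∧ (1 + 2 * q) * (X.re + Y.re + Z.re) = -(10 * (1 + 4 * q)) := by
  have h1 : (1 + 2 * (q : ℂ)) * (X + Y + Z) = ((-(10 * (1 + 4 * q)) : ℝ) : ℂ) := by
    rw [hsum]; push_cast; ring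
  have h2 : (1 + 2 * (q : ℂ)) = ((1 + 2 * q : ℝ) : ℂ) := by push_cast; ring
  rw [h2] at h1
  have h3 := congrArg Complex.im h1
  have h5 := congrArg Complex.re h1
  simp only [mul_im, mul_re, ofReal_re, ofReal_im, add_im, add_re, zero_mul, add_zero, sub_zero]
    at h3 h5
  have h4 : (1 + 2 * q : ℝ) ≠ 0 := by linarith
  exact ⟨(mul_eq_zero.mp h3).resolve_left h4, h5⟩

theorem exists_root_upper {q : ℝ} (hq : 0 < q) {z : ℂ} (hz : 0 < z.im) :
    ∃ X ∈ Dn q, X ≠ 0 ∧ zn q X = z := by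
  by_contra hcon
  push Not at hcon
  obtain ⟨X, Y, Z, hs, he, hp⟩ := three_roots q hq z
  have fact : ∀ W : ℂ, W ≠ 0 → zn q W = z → (W.im < 0 ∧ 100 / 9 ≤ normSq W) ∨
      (0 < W.im ∧ 10 < normSq W * (2 * (1 + 2 * q) * W.re + 10 * (1 + 4 * q))) := by
    intro W hW0 hW
    have hN : 0 < normSq W := normSq_pos.mpr hW0
    have him := zn_im q hW0
    rw [hW] at him
    rw [him] at hz
    have h1 : 0 < W.im * (normSq W * (2 * (1 + 2 * q) * W.re + 10 * (1 + 4 * q)) - 10) := by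
      rw [div_pos_iff] at hz
      rcases hz with h | h
      · exact h.1
      · linarith [h.2]
    rcases lt_trichotomy W.im 0 with h | h | h
    · left
      refine ⟨h, ?_⟩
      have h2 : normSq W * (2 * (1 + 2 * q) * W.re + 10 * (1 + 4 * q)) - 10 < 0 := by
        by_contra h3
        push Not at h3
        nlinarith
      apply normSq_of_re
      by_contra h3
      push Not at h3
      exact hcon W ⟨h3, by linarith⟩ hW0 hW
    · rw [h] at h1
      simp at h1
    · right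
      refine ⟨h, ?_⟩
      have := (mul_pos_iff_of_pos_left h).mp h1
      linarith
  have hXf := root_zn hs he hp
  have hYf : Y ≠ 0 ∧ zn q Y = z := root_zn (X := Y) (Y := X) (Z := Z)
    (by rw [← hs]; ring) (by rw [← he]; ring) (by rw [← hp]; ring)
  have hZf : Z ≠ 0 ∧ zn q Z = z := root_zn (X := Z) (Y := X) (Z := Y)
    (by rw [← hs]; ring) (by rw [← he]; ring) (by rw [← hp]; ring)
  have h0 := (sum_im hq hs).1
  rcases fact X hXf.1 hXf.2 with ⟨hX1, hX2⟩ | ⟨hX1, hX2⟩ <;>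
  rcases fact Y hYf.1 hYf.2 with ⟨hY1, hY2⟩ | ⟨hY1, hY2⟩ <;>
  rcases fact Z hZf.1 hZf.2 with ⟨hZ1, hZ2⟩ | ⟨hZ1, hZ2⟩
  · linarith
  · exact upper_small hq hX2 hY2 hp hZ2
  · exact upper_small hq hX2 hZ2 (Z := Y) (by rw [← hp]; ring) hY2
  · exact one_lower hq hz hs he hp hX2 hY1 hZ1 hY2 hZ2
  · exact upper_small hq hY2 hZ2 (Z := X) (by rw [← hp]; ring) hX2
  · exact one_lower hq hz (X := Y) (Y := X) (Z := Z) (by rw [← hs]; ring) (by rw [← he]; ring)
      (by rw [← hp]; ring) hY2 hX1 hZ1 hX2 hZ2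
  · exact one_lower hq hz (X := Z) (Y := X) (Z := Y) (by rw [← hs]; ring) (by rw [← he]; ring)
      (by rw [← hp]; ring) hZ2 hX1 hY1 hX2 hY2
  · linarith

theorem real_main {q : ℝ} (hq : 0 < q) {a b : ℝ} (ha : -2 < a) (hb : -2 < b) (hab : a ^ 2 ≤ b ^ 2)
    (hEb : b ^ 2 * (2 * (1 + 2 * q) * b + 10 * (1 + 4 * q)) < 10)
    (hE : a * b * ((1 + 2 * q) * (a + b) + 10 * (1 + 4 * q)) = 10) : False := by
  have h1 : 0 ≤ b * (b - a) := by nlinarith [sq_nonneg (a - b)]
  have h2 : 0 < 10 * (1 + 4 * q) + (1 + 2 * q) * (2 * b + a) := by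
    have h3 : 0 < (1 + 2 * q) * (2 * b + a + 6) := mul_pos (by linarith) (by linarith)
    nlinarith
  have h3 : 0 ≤ b * (b - a) * (10 * (1 + 4 * q) + (1 + 2 * q) * (2 * b + a)) := mul_nonneg h1 h2.le
  have h4 : b * (b - a) * (10 * (1 + 4 * q) + (1 + 2 * q) * (2 * b + a)) =
      b ^ 2 * (2 * (1 + 2 * q) * b + 10 * (1 + 4 * q)) -
        a * b * ((1 + 2 * q) * (a + b) + 10 * (1 + 4 * q)) := by ring
  rw [h4] at h3
  linarith

theorem no_pair {q : ℝ} (hq : 0 < q) {X Y : ℂ} (hX : X ∈ Dn q) (hY : Y ∈ Dn q)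
    (hX0 : X ≠ 0) (hY0 : Y ≠ 0)
    (h : X * Y * ((1 + 2 * (q : ℂ)) * (X + Y) + 10 * (1 + 4 * (q : ℂ))) = 10) : False := by
  have hB : (1 + 2 * (q : ℂ)) ≠ 0 := by
    have : (1 + 2 * q : ℝ) ≠ 0 := by linarith
    exact_mod_cast this
  set Z : ℂ := -(10 * (1 + 4 * (q : ℂ))) / (1 + 2 * (q : ℂ)) - X - Y with hZ
  have hBZ : (1 + 2 * (q : ℂ)) * Z = -(10 * (1 + 4 * (q : ℂ))) - (1 + 2 * (q : ℂ)) * (X + Y) := by
    rw [hZ]
    field_simp
    ring
  have hs : (1 + 2 * (q : ℂ)) * (X + Y + Z) = -(10 * (1 + 4 * (q : ℂ))) := by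
    linear_combination hBZ
  have hp : (1 + 2 * (q : ℂ)) * (X * Y * Z) = -10 := by
    linear_combination X * Y * hBZ - h
  have h2z : 2 * zn q X * X = (1 + 2 * (q : ℂ)) * X ^ 3 + 10 * (1 + 4 * (q : ℂ)) * X ^ 2 +
      (1 + 200 * (q : ℂ)) * X + 10 := by
    unfold zn
    field_simp
    ring
  have he : (1 + 2 * (q : ℂ)) * (X * Y + X * Z + Y * Z) = 1 + 200 * (q : ℂ) - 2 * zn q X := by
    apply mul_left_cancel₀ hX0
    linear_combination X * (X + Y) * hBZ + h2z - h
  set z := zn q X with hz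
  have hYf : Y ≠ 0 ∧ zn q Y = z := root_zn (X := Y) (Y := X) (Z := Z)
    (by rw [← hs]; ring) (by rw [← he]; ring) (by rw [← hp]; ring)
  have hZf : Z ≠ 0 ∧ zn q Z = z := root_zn (X := Z) (Y := X) (Z := Y)
    (by rw [← hs]; ring) (by rw [← he]; ring) (by rw [← hp]; ring)
  obtain ⟨h0, hre⟩ := sum_im hq hs
  obtain ⟨hNX3, hx1, hx2⟩ := Dn_facts hq hX
  obtain ⟨hNY3, hy1, hy2⟩ := Dn_facts hq hY
  have hNX : 0 < normSq X := normSq_pos.mpr hX0
  have hNY : 0 < normSq Y := normSq_pos.mpr hY0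
  have hNZ : 0 < normSq Z := normSq_pos.mpr hZf.1
  have hiX := zn_im q hX0
  have hiY := zn_im q hY0
  have hiZ := zn_im q hZf.1
  rw [hYf.2] at hiY
  rw [hZf.2] at hiZ
  rw [← hz] at hiX
  have hEX : normSq X * (2 * (1 + 2 * q) * X.re + 10 * (1 + 4 * q)) < 10 := hX.2
  have hEY : normSq Y * (2 * (1 + 2 * q) * Y.re + 10 * (1 + 4 * q)) < 10 := hY.2
  rw [eq_div_iff (by positivity)] at hiX hiY hiZ
  have hupper : 10 < normSq Z * (2 * (1 + 2 * q) * Z.re + 10 * (1 + 4 * q)) → False := by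
    intro hE
    have h1 : 0 < 2 * (1 + 2 * q) * Z.re + 10 * (1 + 4 * q) := by
      by_contra hcon
      push Not at hcon
      have h2 := mul_nonpos_of_nonneg_of_nonpos hNZ.le hcon
      linarith
    have h2 : 0 < (1 + 2 * q) * (X.re + Y.re + 4) := mul_pos (by linarith) (by linarith)
    nlinarith
  rcases lt_trichotomy z.im 0 with hzi | hzi | hzi
  · have hX' : 0 < X.im := by
      by_contra hcon
      push Not at hcon
      have h1 : z.im * (2 * normSq X) < 0 := mul_neg_of_neg_of_pos hzi (by positivity)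
      nlinarith
    have hY' : 0 < Y.im := by
      by_contra hcon
      push Not at hcon
      have h1 : z.im * (2 * normSq Y) < 0 := mul_neg_of_neg_of_pos hzi (by positivity)
      nlinarith
    have hZ' : Z.im < 0 := by linarith
    apply hupper
    by_contra hcon
    push Not at hcon
    have h1 : z.im * (2 * normSq Z) < 0 := mul_neg_of_neg_of_pos hzi (by positivity)
    nlinarith
  · rw [hzi, zero_mul] at hiX hiY
    have hX' : X.im = 0 := by
      rcases mul_eq_zero.mp hiX.symm with h1 | h1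
      · exact h1
      · linarith
    have hY' : Y.im = 0 := by
      rcases mul_eq_zero.mp hiY.symm with h1 | h1
      · exact h1
      · linarith
    have hXr : X = (X.re : ℂ) := by apply Complex.ext <;> simp [hX']
    have hYr : Y = (Y.re : ℂ) := by apply Complex.ext <;> simp [hY']
    have hnX : normSq X = X.re ^ 2 := by rw [normSq_apply, hX']; ring
    have hnY : normSq Y = Y.re ^ 2 := by rw [normSq_apply, hY']; ring
    rw [hnX] at hEX
    rw [hnY] at hEY
    rw [hXr, hYr] at h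
    have h' : X.re * Y.re * ((1 + 2 * q) * (X.re + Y.re) + 10 * (1 + 4 * q)) = 10 := by
      exact_mod_cast h
    generalize X.re = x at *
    generalize Y.re = y at *
    rcases le_total (x ^ 2) (y ^ 2) with hxy | hxy
    · exact real_main hq hx1 hy1 hxy hEY h'
    · exact real_main hq hy1 hx1 hxy hEX (by linear_combination h')
  · have hX' : X.im < 0 := by
      by_contra hcon
      push Not at hcon
      have h1 : 0 < z.im * (2 * normSq X) := by positivity
      nlinarith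
    have hY' : Y.im < 0 := by
      by_contra hcon
      push Not at hcon
      have h1 : 0 < z.im * (2 * normSq Y) := by positivity
      nlinarith
    have hZ' : 0 < Z.im := by linarith
    apply hupper
    by_contra hcon
    push Not at hcon
    have h1 : 0 < z.im * (2 * normSq Z) := by positivity
    nlinarith

end Pool.Agent.R951.FM
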