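import Mathlib
import Pool.Agent.R951.FM.Fam3

set_option autoImplicit false

open MeasureTheory Filter Topology Set Complex Metric

namespace Pool.Agent.R951.FM

/-- `zn` on the real line -/
noncomputable def rn (q x : ℝ) : ℝ := (10 + x) * (x ^ 2 + 1) / (2 * x) + q * (10 + x) ^ 2

theorem zn_ofReal (q x : ℝ) : zn q (x : ℂ) = ((rn q x : ℝ) : ℂ) := by
  unfold zn rn
  push_cast
  ring

theorem ofReal_mem_Dn {q x : ℝ} (hq : 0 < q) (hq1 : q ≤ 1) (h1 : -(2 / 5) ≤ x) (h2 : x ≤ 2 / 5) :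
    (x : ℂ) ∈ Dn q := by
  refine ⟨?_, ?_⟩
  · rw [ofReal_re]
    linarith
  · rw [ofReal_re, normSq_ofReal]
    have h3 : x * x ≤ 4 / 25 := by nlinarith
    have h5 : 2 * (1 + 2 * q) * x + 10 * (1 + 4 * q) ≤ 53 := by nlinarith
    have h6 : 0 ≤ x * x := mul_self_nonneg x
    nlinarith

theorem rn_cont {q a b : ℝ} (h : 0 ∉ Icc a b) : ContinuousOn (rn q) (Icc a b) := by
  unfold rn
  apply ContinuousOn.add
  · apply ContinuousOn.div (by fun_prop) (by fun_prop)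
    intro x hx
    have : x ≠ 0 := by
      rintro rfl
      exact h hx
    positivity
  · fun_prop

theorem real_root_pos {q z : ℝ} (hq : 0 < q) (hq1 : q ≤ 1) (hz : 124 < z) :
    ∃ x : ℝ, x ≠ 0 ∧ (x : ℂ) ∈ Dn q ∧ rn q x = z := by
  have ha : 0 < 5 / z := by positivity
  have hab : 5 / z ≤ 2 / 5 := by
    rw [div_le_iff₀ (by linarith)]
    linarith
  have hfb : rn q (2 / 5) ≤ z := by
    unfold rn
    have : (10 + 2 / 5) * ((2 / 5) ^ 2 + 1) / (2 * (2 / 5)) + q * (10 + 2 / 5) ^ 2 ≤ 124 := by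
      norm_num
      linarith
    linarith
  have hfa : z ≤ rn q (5 / z) := by
    unfold rn
    set a := 5 / z with hadef
    have hz' : z = 5 / a := by rw [hadef]; field_simp
    have h1 : 5 / a ≤ (10 + a) * (a ^ 2 + 1) / (2 * a) := by
      rw [div_le_div_iff₀ ha (by positivity)]
      nlinarith [sq_nonneg a, mul_pos ha ha, mul_pos (mul_pos ha ha) ha]
    have h2 : 0 ≤ q * (10 + a) ^ 2 := by positivity
    linarith
  have h0 : (0 : ℝ) ∉ Icc (5 / z) (2 / 5) := fun h => by linarith [h.1]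
  obtain ⟨x, hx, hxz⟩ := intermediate_value_Icc' hab (rn_cont (q := q) h0) ⟨hfb, hfa⟩
  refine ⟨x, ?_, ofReal_mem_Dn hq hq1 (by linarith [hx.1]) hx.2, hxz⟩
  intro h
  rw [h] at hx
  exact h0 hx

theorem real_root_neg {q z ξ : ℝ} (hq : 0 < q) (hq1 : q ≤ 1) (hξ1 : ξ ≤ 2 / 5)
    (hz : z ≤ rn q (-ξ)) (hz0 : z < 0) (hzξ : 24 / 5 / (100 - z) ≤ ξ) :
    ∃ x : ℝ, x ≠ 0 ∧ (x : ℂ) ∈ Dn q ∧ rn q x = z := by
  set a := 24 / 5 / (100 - z) with ha
  have ha0 : 0 < a := by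
    rw [ha]
    apply div_pos (by norm_num)
    linarith
  have hfb : rn q (-a) ≤ z := by
    unfold rn
    have hz' : z = 100 - 24 / 5 / a := by
      rw [ha]
      have : (100 - z) ≠ 0 := by linarith
      field_simp
      ring
    have h1 : (10 + -a) * ((-a) ^ 2 + 1) / (2 * -a) ≤ -(24 / 5 / a) := by
      have h3 : (10 + -a) * ((-a) ^ 2 + 1) / (2 * -a) = -((10 - a) * (a ^ 2 + 1) / (2 * a)) := by
        field_simp
        ring
      rw [h3, neg_le_neg_iff, div_le_div_iff₀ ha0 (by positivity)]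
      have h4 : a ≤ 2 / 5 := by linarith
      have h5 : 48 / 5 * 1 ≤ (10 - a) * (a ^ 2 + 1) :=
        mul_le_mul (by linarith) (by nlinarith) (by norm_num) (by linarith)
      nlinarith
    have h2 : q * (10 + -a) ^ 2 ≤ 100 := by
      have h4 : a ≤ 2 / 5 := by linarith
      have h5 : (10 + -a) ^ 2 ≤ 100 := by nlinarith
      nlinarith [sq_nonneg (10 + -a)]
    rw [hz']
    linarith
  have h0 : (0 : ℝ) ∉ Icc (-ξ) (-a) := fun h => by linarith [h.2]
  obtain ⟨x, hx, hxz⟩ := intermediate_value_Icc' (by linarith : -ξ ≤ -a) (rn_cont (q := q) h0)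
    ⟨hfb, hz⟩
  refine ⟨x, ?_, ofReal_mem_Dn hq hq1 (by linarith [hx.1]) (by linarith [hx.2]), hxz⟩
  intro h
  rw [h] at hx
  exact h0 hx

theorem Dn_conj {q : ℝ} {X : ℂ} (hX : X ∈ Dn q) : (starRingEnd ℂ) X ∈ Dn q := by
  refine ⟨?_, ?_⟩
  · rw [conj_re]; exact hX.1
  · rw [conj_re, normSq_conj]; exact hX.2

theorem zn_conj (q : ℝ) (X : ℂ) : zn q ((starRingEnd ℂ) X) = (starRingEnd ℂ) (zn q X) := by
  unfold zn
  simp only [map_add, map_mul, map_div₀, map_pow, map_one, Complex.conj_ofReal, map_ofNat]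

theorem gn_conj (X : ℂ) : gn ((starRingEnd ℂ) X) = (starRingEnd ℂ) (gn X) := by
  unfold gn
  simp only [map_add, map_mul, map_div₀, map_pow, map_one, map_ofNat]

/-- all roots -/
theorem exists_root {q L ξ : ℝ} (hq : 0 < q) (hq1 : q ≤ 1) (hξ1 : ξ ≤ 2 / 5) (hL0 : L ≤ 0)
    (hL : L ≤ rn q (-ξ)) (hLξ : 24 / 5 / (100 - L) ≤ ξ) {z : ℂ} (hz : z ∉ Slit L 124) :
    ∃ X ∈ Dn q, X ≠ 0 ∧ zn q X = z := by
  rcases lt_trichotomy z.im 0 with h | h | h
  · have h' : 0 < ((starRingEnd ℂ) z).im := by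
      rw [conj_im]
      linarith
    obtain ⟨X, hX, hX0, hXz⟩ := exists_root_upper hq h'
    refine ⟨(starRingEnd ℂ) X, Dn_conj hX, (map_ne_zero _).mpr hX0, ?_⟩
    rw [zn_conj, hXz, Complex.conj_conj]
  · have hzr : z = (z.re : ℂ) := by apply Complex.ext <;> simp [h]
    have hz2 : z.re < L ∨ 124 < z.re := by
      by_contra hcon
      push Not at hcon
      exact hz ⟨h, hcon.1, hcon.2⟩
    rcases hz2 with h2 | h2
    · have h3 : 24 / 5 / (100 - z.re) ≤ ξ := by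
        refine le_trans ?_ hLξ
        apply div_le_div_of_nonneg_left (by norm_num) (by linarith) (by linarith)
      obtain ⟨x, hx0, hxD, hxz⟩ := real_root_neg hq hq1 hξ1 (z := z.re) (by linarith) (by linarith) h3
      refine ⟨x, hxD, by exact_mod_cast hx0, ?_⟩
      rw [zn_ofReal, hxz, ← hzr]
    · obtain ⟨x, hx0, hxD, hxz⟩ := real_root_pos hq hq1 h2
      refine ⟨x, hxD, by exact_mod_cast hx0, ?_⟩
      rw [zn_ofReal, hxz, ← hzr]
  · exact exists_root_upper hq h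

theorem Dn_sq_add_one {q : ℝ} (hq : 0 < q) (hq1 : q ≤ 1) {X : ℂ} (hX : X ∈ Dn q) :
    q / 4 ≤ ‖X ^ 2 + 1‖ := by
  by_contra hcon
  push Not at hcon
  have h1 : normSq (X ^ 2 + 1) < (q / 4) ^ 2 := by
    rw [normSq_eq_norm_sq]
    have := norm_nonneg (X ^ 2 + 1)
    nlinarith
  rw [normSq_sq_add_one] at h1
  obtain ⟨h2, h3⟩ := hX
  set N := normSq X with hN
  have h4 : (N - 1) ^ 2 < (q / 4) ^ 2 := by nlinarith [sq_nonneg X.re]
  have h5 : (2 * X.re) ^ 2 < (q / 4) ^ 2 := by nlinarith [sq_nonneg (N - 1)]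
  have h6 := (abs_lt_of_sq_lt_sq' h4 (by positivity)).1
  have h7 := (abs_lt_of_sq_lt_sq' h5 (by positivity)).1
  have h8 : 0 < 1 - q / 4 := by linarith
  have h9 : 10 + 40 * q - (1 + 2 * q) * (q / 4) < 2 * (1 + 2 * q) * X.re + 10 * (1 + 4 * q) := by
    nlinarith
  have h10 : 10 ≤ (1 - q / 4) * (10 + 40 * q - (1 + 2 * q) * (q / 4)) := by
    nlinarith [mul_pos hq hq, mul_pos (mul_pos hq hq) hq]
  have h11 : 0 < 10 + 40 * q - (1 + 2 * q) * (q / 4) := by nlinarith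
  have h12 : (1 - q / 4) * (10 + 40 * q - (1 + 2 * q) * (q / 4)) <
      N * (2 * (1 + 2 * q) * X.re + 10 * (1 + 4 * q)) :=
    mul_lt_mul'' (by linarith) h9 h8.le h11.le
  linarith

theorem Dn_norm {q : ℝ} (hq : 0 < q) {X : ℂ} (hX : X ∈ Dn q) : ‖X‖ ≤ 2 := by
  have h := (Dn_facts hq hX).1
  rw [normSq_eq_norm_sq] at h
  nlinarith [norm_nonneg X]

theorem Dn_ten {q : ℝ} (hq : 0 < q) {X : ℂ} (hX : X ∈ Dn q) : 8 ≤ ‖10 + X‖ := by
  have h := Dn_norm hq hX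
  have := norm_sub_norm_le (10 : ℂ) (-X)
  rw [norm_neg, Complex.norm_ofNat, sub_neg_eq_add] at this
  linarith

end Pool.Agent.R951.FM
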