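import Mathlib
import Pool.Agent.R951.FM.Fam4

set_option autoImplicit false

open MeasureTheory Filter Topology Set Complex Metric

namespace Pool.Agent.R951.FM

theorem fam2 {q L ξ : ℝ} (hq : 0 < q) (hq1 : q ≤ 1) (hξ1 : ξ ≤ 2 / 5) (hL0 : L ≤ 0)
    (hL : L ≤ rn q (-ξ)) (hLξ : 24 / 5 / (100 - L) ≤ ξ) :
    ∃ μ : Measure ℝ, IsProbabilityMeasure μ ∧ μ (Icc L 124)ᶜ = 0 ∧
      ∀ᶠ X in 𝓝[≠] (0 : ℂ), cauchyT μ (zn q X) = gn X := by
  have hLU : L < 124 := by linarith
  have hopen : IsOpen (Dn q) := by
    have h1 : IsOpen {X : ℂ | -10 / 3 < X.re} := isOpen_lt continuous_const continuous_re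
    have h2 : IsOpen {X : ℂ | normSq X * (2 * (1 + 2 * q) * X.re + 10 * (1 + 4 * q)) < 10} := by
      apply isOpen_lt _ continuous_const
      apply Continuous.mul continuous_normSq
      fun_prop
    exact h1.inter h2
  have hne1 : ∀ X ∈ Dn q, X ^ 2 + 1 ≠ 0 := by
    intro X hX h
    have := Dn_sq_add_one hq hq1 hX
    rw [h, norm_zero] at this
    linarith
  have hne2 : ∀ X ∈ Dn q, 10 + X ≠ 0 := by
    intro X hX h
    have := Dn_ten hq hX
    rw [h, norm_zero] at this
    linarith
  have hGd : DifferentiableOn ℂ gn (Dn q) := by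
    intro X hX
    apply DifferentiableAt.differentiableWithinAt
    unfold gn
    apply DifferentiableAt.div (by fun_prop) (by fun_prop)
    exact mul_ne_zero (hne2 X hX) (hne1 X hX)
  have h0D : (0 : ℂ) ∈ Dn q := by
    refine ⟨?_, ?_⟩
    · simp
      norm_num
    · simp
  have hprod : Tendsto (fun X => zn q X * gn X) (𝓝[≠] 0) (𝓝 1) := by
    have hc : ContinuousAt (fun X : ℂ => 1 + (q : ℂ) * (10 + X) * (2 * X) / (X ^ 2 + 1)) 0 := by
      apply ContinuousAt.add continuousAt_const
      apply ContinuousAt.div (by fun_prop) (by fun_prop)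
      simp
    have h1 := hc.tendsto.mono_left (nhdsWithin_le_nhds (s := {0}ᶜ))
    simp only [mul_zero, ne_eq, OfNat.ofNat_ne_zero, not_false_eq_true, zero_pow, zero_add,
      div_one, add_zero] at h1
    refine h1.congr' ?_
    have hD' : ∀ᶠ X : ℂ in 𝓝[≠] 0, X ∈ Dn q := nhdsWithin_le_nhds (hopen.mem_nhds h0D)
    filter_upwards [self_mem_nhdsWithin, hD'] with X hX hXD
    have hX0 : X ≠ 0 := hX
    have h1 := hne1 X hXD
    have h2 := hne2 X hXD
    unfold zn gn
    field_simp
  obtain ⟨μ, h1, h2, h3⟩ := exists_measure_unif (L := L) (U := 124) hLU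
    (D := Dn q) (ζ := zn q) (G := gn) hopen
    (by
      intro X hX hX0
      refine ⟨(10 + 10 * (-(X ^ 2)⁻¹) + 2 * X + 0) / 2 + (q : ℂ) * (2 * (10 + X)), ?_, ?_⟩
      · intro h
        apply no_pair hq hX hX hX0 hX0
        field_simp at h
        linear_combination h
      · have hid := hasStrictDerivAt_id X
        have h1 : HasStrictDerivAt
            (fun X : ℂ => (10 * X + 10 * X⁻¹ + X ^ 2 + 1) / 2 + (q : ℂ) * (10 + X) ^ 2)
            ((10 * 1 + 10 * (-(X ^ 2)⁻¹) + 2 * X + 0) / 2 + (q : ℂ) * (2 * (10 + X) * (0 + 1))) X := by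
          apply HasStrictDerivAt.add
          · apply HasStrictDerivAt.div_const
            apply HasStrictDerivAt.add
            · apply HasStrictDerivAt.add
              · apply HasStrictDerivAt.add
                · exact hid.const_mul _
                · exact (hasStrictDerivAt_inv hX0).const_mul _
              · have := hasStrictDerivAt_pow 2 X
                simpa using this
            · exact hasStrictDerivAt_const _ _
          · apply HasStrictDerivAt.const_mul
            have h5 : HasStrictDerivAt (fun X : ℂ => 10 + X) (0 + 1) X :=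
              (hasStrictDerivAt_const _ _).add hid
            have h6 := h5.fun_pow 2
            simpa using h6
        have h2 : (10 * 1 + 10 * (-(X ^ 2)⁻¹) + 2 * X + 0) / 2 + (q : ℂ) * (2 * (10 + X) * (0 + 1)) =
            (10 + 10 * (-(X ^ 2)⁻¹) + 2 * X + 0) / 2 + (q : ℂ) * (2 * (10 + X)) := by ring
        rw [h2] at h1
        apply h1.congr_of_eventuallyEq
        filter_upwards [isOpen_ne.mem_nhds hX0] with Y hY
        exact (zn_eq q hY).symm)
    hGd
    (by
      intro X hX Y hY hX0 hY0 h
      by_contra hne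
      rw [zn_eq q hX0, zn_eq q hY0] at h
      apply no_pair hq hX hY hX0 hY0
      have hsub : X - Y ≠ 0 := sub_ne_zero.mpr hne
      apply mul_left_cancel₀ hsub
      field_simp at h
      linear_combination h)
    (fun z hz => exists_root hq hq1 hξ1 hL0 hL hLξ hz)
    (C := 4 / (8 * (q / 4)))
    (by
      intro X hX
      unfold gn
      rw [norm_div, norm_mul, norm_mul, Complex.norm_ofNat]
      have h1 := Dn_norm hq hX
      have h2 := Dn_ten hq hX
      have h3 := Dn_sq_add_one hq hq1 hX
      apply div_le_div₀ (by norm_num) (by linarith) (by positivity)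
      exact mul_le_mul h2 h3 (by positivity) (by positivity))
    (by
      intro X hX hX0 him
      have hN0 : 0 < normSq X := normSq_pos.mpr hX0
      rw [zn_im q hX0] at him
      have hE : normSq X * (2 * (1 + 2 * q) * X.re + 10 * (1 + 4 * q)) < 10 := hX.2
      have hy : X.im < 0 := by
        by_contra hcon
        push Not at hcon
        have : X.im * (normSq X * (2 * (1 + 2 * q) * X.re + 10 * (1 + 4 * q)) - 10) /
            (2 * normSq X) ≤ 0 := by
          apply div_nonpos_of_nonpos_of_nonneg _ (by positivity)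
          exact mul_nonpos_of_nonneg_of_nonpos hcon (by linarith)
        linarith
      have h1 := hne1 X hX
      have h2 := hne2 X hX
      have hg : gn X = (zn 0 X)⁻¹ := by
        unfold gn zn
        simp only [ofReal_zero, zero_mul, add_zero]
        rw [inv_div]
      rw [hg, inv_im]
      apply div_nonpos_of_nonpos_of_nonneg _ (normSq_nonneg _)
      rw [zn_im 0 hX0, neg_nonpos]
      have hx := hX.1
      have h3 : normSq X * (2 * (1 + 2 * 0) * X.re + 10 * (1 + 4 * 0)) - 10 < 0 := by
        have h4 : 0 < normSq X * (4 * q * (X.re + 10)) := by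
          apply mul_pos hN0
          apply mul_pos (by linarith)
          linarith
        nlinarith
      apply div_nonneg _ (by positivity)
      exact mul_nonneg_of_nonpos_of_nonpos hy.le h3.le)
    (fun X hX => Dn_conj hX) (zn_conj q) gn_conj
    (B := 400)
    (by
      intro X hX hX0
      rw [← norm_mul]
      have he : X * zn q X = (10 + X) * (X ^ 2 + 1) / 2 + (q : ℂ) * (10 + X) ^ 2 * X := by
        unfold zn
        field_simp
      rw [he]
      have hn := Dn_norm hq hX
      have hn0 := norm_nonneg X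
      have h5 : ‖10 + X‖ ≤ 12 := by
        have := norm_add_le (10 : ℂ) X
        rw [Complex.norm_ofNat] at this
        linarith
      have h6 : ‖X ^ 2 + 1‖ ≤ 5 := by
        have := norm_add_le (X ^ 2) 1
        rw [norm_pow, norm_one] at this
        nlinarith
      have h7 : ‖(10 + X) * (X ^ 2 + 1) / 2‖ ≤ 12 * 5 / 2 := by
        rw [norm_div, norm_mul, Complex.norm_ofNat]
        gcongr
      have h8 : ‖(q : ℂ) * (10 + X) ^ 2 * X‖ ≤ 1 * 12 ^ 2 * 2 := by
        rw [norm_mul, norm_mul, norm_pow, Complex.norm_real, Real.norm_eq_abs, abs_of_pos hq]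
        gcongr
      have := norm_add_le ((10 + X) * (X ^ 2 + 1) / 2) ((q : ℂ) * (10 + X) ^ 2 * X)
      linarith)
    hprod
  exact ⟨μ, h1, h2, ev_cauchy hopen h0D (hGd.differentiableAt (hopen.mem_nhds h0D)).continuousAt
    (by simp [gn]) hprod h3⟩

/-- the law `ν`, on `[0, 124]` -/
theorem nu_one : ∃ μ : Measure ℝ, IsProbabilityMeasure μ ∧ μ (Icc 0 124)ᶜ = 0 ∧
    ∀ᶠ X in 𝓝[≠] (0 : ℂ), cauchyT μ (zn 1 X) = gn X := by
  apply fam2 (ξ := 3 / 50) (by norm_num) le_rfl (by norm_num) le_rfl
  · unfold rn
    norm_num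
  · norm_num

theorem nu_q {q : ℝ} (hq : 0 < q) (hq1 : q ≤ 1) : ∃ μ : Measure ℝ, IsProbabilityMeasure μ ∧
    μ (Icc (-14) 124)ᶜ = 0 ∧ ∀ᶠ X in 𝓝[≠] (0 : ℂ), cauchyT μ (zn q X) = gn X := by
  apply fam2 (ξ := 2 / 5) hq hq1 le_rfl (by norm_num)
  · unfold rn
    norm_num
    linarith
  · norm_num

end Pool.Agent.R951.FM
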