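import Mathlib
import Pool.Agent.R951.FM.Defs

set_option autoImplicit false

open MeasureTheory Filter Topology Set Complex Metric

namespace Pool.Agent.R951.FM

theorem exists_inv {p : ℂ → ℂ} (hp : AnalyticAt ℂ p 0) (h0 : p 0 = 0) (hd : deriv p 0 ≠ 0) :
    ∃ ρ : ℂ → ℂ, AnalyticAt ℂ ρ 0 ∧ ρ 0 = 0 ∧ (∀ᶠ s in 𝓝 0, p (ρ s) = s) ∧
      Tendsto ρ (𝓝[≠] 0) (𝓝[≠] 0) := by
  set ρ := hp.hasStrictDerivAt.localInverse p (deriv p 0) 0 hd with hρ
  have h1 : AnalyticAt ℂ ρ 0 := by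
    have := hp.analyticAt_localInverse hd
    rw [h0] at this
    exact this
  have h2 : ρ 0 = 0 := by
    have := HasStrictFDerivAt.localInverse_apply_image
      (hp.hasStrictDerivAt.hasStrictFDerivAt_equiv hd)
    rw [h0] at this
    exact this
  have h3 : ∀ᶠ s in 𝓝 0, p (ρ s) = s := by
    have := hp.hasStrictDerivAt.eventually_right_inverse hd
    rw [h0] at this
    exact this
  refine ⟨ρ, h1, h2, h3, ?_⟩
  apply tendsto_nhdsWithin_of_tendsto_nhds_of_eventually_within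
  · have := h1.continuousAt.tendsto.mono_left (nhdsWithin_le_nhds (s := {0}ᶜ))
    rw [h2] at this
    exact this
  · filter_upwards [self_mem_nhdsWithin, nhdsWithin_le_nhds h3] with s hs hs'
    intro h
    have h' : ρ s = 0 := h
    rw [h', h0] at hs'
    exact hs hs'.symm

theorem isR {μ : Measure ℝ} {ζ v Φ ρ : ℂ → ℂ} (hρ : AnalyticAt ℂ ρ 0) (hρ0 : ρ 0 = 0)
    (hinv : ∀ᶠ s in 𝓝 0, v (ρ s) = s) (hlim : Tendsto ρ (𝓝[≠] 0) (𝓝[≠] 0))
    (hΦ : AnalyticAt ℂ Φ 0) (hζ : ∀ X, ζ X = Φ X + 1 / v X)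
    (hμ : ∀ᶠ X in 𝓝[≠] (0 : ℂ), cauchyT μ (ζ X) = v X) :
    IsRTransform μ (fun u => Φ (ρ u)) := by
  refine ⟨?_, ?_⟩
  · have : AnalyticAt ℂ Φ (ρ 0) := by rw [hρ0]; exact hΦ
    exact this.comp hρ
  · filter_upwards [hlim.eventually hμ, nhdsWithin_le_nhds hinv] with u h1 h2
    rw [hζ, h2] at h1
    exact h1

theorem psi_eq {μ : Measure ℝ} [IsProbabilityMeasure μ] {C : ℝ} (hC : μ (Icc (-C) C)ᶜ = 0) {ζ : ℂ}
    (hζ : C < ‖ζ‖) (hζ0 : ζ ≠ 0) : psiT μ ζ⁻¹ = ζ * cauchyT μ ζ - 1 := by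
  have hae : ∀ᵐ x ∂μ, x ∈ Icc (-C) C := by
    rw [ae_iff]
    exact hC
  have hne : ∀ x ∈ Icc (-C) C, ‖ζ‖ - C ≤ ‖ζ - (x : ℂ)‖ := by
    intro x hx
    have h1 := norm_sub_norm_le ζ (x : ℂ)
    rw [Complex.norm_real, Real.norm_eq_abs] at h1
    have h2 : |x| ≤ C := abs_le.mpr hx
    linarith
  have hint : Integrable (fun x : ℝ => ζ * (ζ - (x : ℂ))⁻¹) μ := by
    apply Integrable.const_mul
    apply Integrable.of_bound (C := (‖ζ‖ - C)⁻¹)
    · apply Measurable.aestronglyMeasurable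
      fun_prop
    · filter_upwards [hae] with x hx
      rw [norm_inv]
      exact inv_anti₀ (by linarith) (hne x hx)
  unfold psiT cauchyT
  have h1 : ∫ x : ℝ, ζ⁻¹ * (x : ℂ) / (1 - ζ⁻¹ * x) ∂μ =
      ∫ x : ℝ, (ζ * (ζ - (x : ℂ))⁻¹ - 1) ∂μ := by
    apply integral_congr_ae
    filter_upwards [hae] with x hx
    have h2 : ζ - (x : ℂ) ≠ 0 := by
      intro h
      have := hne x hx
      rw [h, norm_zero] at this
      linarith
    have h3 : 1 - ζ⁻¹ * (x : ℂ) = (ζ - x) / ζ := by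
      field_simp
    rw [h3]
    field_simp
    ring
  rw [h1, integral_sub hint (integrable_const _), integral_const_mul]
  simp

theorem isS {μ : Measure ℝ} [IsProbabilityMeasure μ] {C : ℝ} (hC : μ (Icc (-C) C)ᶜ = 0)
    {ζ v σ T ρ : ℂ → ℂ} (hμ : ∀ᶠ X in 𝓝[≠] (0 : ℂ), cauchyT μ (ζ X) = v X)
    (hprod : Tendsto (fun X => ζ X * v X) (𝓝[≠] 0) (𝓝 1)) (hv : Tendsto v (𝓝[≠] 0) (𝓝 0))
    (hρ : AnalyticAt ℂ ρ 0) (hρ0 : ρ 0 = 0)
    (hinv : ∀ᶠ s in 𝓝 0, σ (ρ s) = s) (hlim : Tendsto ρ (𝓝[≠] 0) (𝓝[≠] 0))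
    (hT : AnalyticAt ℂ T 0)
    (hσT : ∀ᶠ X in 𝓝[≠] (0 : ℂ), σ X / (1 + σ X) * T X = (ζ X)⁻¹)
    (hσ : ∀ᶠ X in 𝓝[≠] (0 : ℂ), ζ X * v X = 1 + σ X) :
    IsSTransform μ (fun s => T (ρ s)) := by
  have hbig : ∀ᶠ X in 𝓝[≠] (0 : ℂ), C < ‖ζ X‖ ∧ ζ X ≠ 0 := by
    have h1 : ∀ᶠ X in 𝓝[≠] (0 : ℂ), 1 / 2 < ‖ζ X * v X‖ := by
      have := hprod.norm
      rw [norm_one] at this
      exact this.eventually (lt_mem_nhds (by norm_num))
    have h2 : ∀ᶠ X in 𝓝[≠] (0 : ℂ), (|C| + 1) * ‖v X‖ < 1 / 2 := by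
      have h3 : Tendsto (fun X => (|C| + 1) * ‖v X‖) (𝓝[≠] 0) (𝓝 0) := by
        have h4 := hv.norm.const_mul (|C| + 1)
        simpa using h4
      exact h3.eventually (gt_mem_nhds (by norm_num))
    filter_upwards [h1, h2] with X h1 h2
    refine ⟨?_, ?_⟩
    · by_contra hcon
      push Not at hcon
      rw [norm_mul] at h1
      have h4 : ‖ζ X‖ * ‖v X‖ ≤ (|C| + 1) * ‖v X‖ :=
        mul_le_mul_of_nonneg_right (by linarith [le_abs_self C]) (norm_nonneg _)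
      linarith
    · intro h
      rw [h, zero_mul, norm_zero] at h1
      linarith
  refine ⟨?_, ?_⟩
  · have : AnalyticAt ℂ T (ρ 0) := by rw [hρ0]; exact hT
    exact this.comp hρ
  · have hp : ∀ᶠ s in 𝓝[≠] (0 : ℂ), psiT μ (s / (1 + s) * T (ρ s)) = s := by
      filter_upwards [hlim.eventually hμ, hlim.eventually hbig, hlim.eventually hσT,
        hlim.eventually hσ, nhdsWithin_le_nhds hinv] with s h1 h2 h3 h4 h5
      rw [h5] at h3 h4
      rw [h3, psi_eq hC h2.1 h2.2, h1, h4]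
      ring
    rw [eventually_nhdsWithin_iff] at hp
    filter_upwards [hp] with s hs
    by_cases h : s = 0
    · rw [h]
      simp [psiT]
    · exact hs h

/-- uniqueness of the R-transform -/
theorem R_unique {μ : Measure ℝ} (hμ : CompactProb μ) {R R' : ℂ → ℂ} (h : IsRTransform μ R)
    (h' : IsRTransform μ R') : ∀ᶠ u in 𝓝[≠] (0 : ℂ), R u = R' u := by
  obtain ⟨hp, C, hC⟩ := hμ
  have hae : ∀ᵐ x ∂μ, x ∈ Icc (-C) C := by
    rw [ae_iff]
    exact hC
  set K : ℝ := 4 * (|C| + 1) with hK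
  have hK0 : 0 < K := by positivity
  -- the kernel estimate
  have hker : ∀ z : ℂ, K < ‖z‖ → ∀ x ∈ Icc (-C) C, z - (x : ℂ) ≠ 0 ∧
      ‖z * (z - (x : ℂ))⁻¹ - 1‖ ≤ 1 / 3 := by
    intro z hz x hx
    have h2 : |x| ≤ |C| := (abs_le.mpr hx).trans (le_abs_self C)
    have h1 := norm_sub_norm_le z (x : ℂ)
    rw [Complex.norm_real, Real.norm_eq_abs] at h1
    have h3 : 3 * |x| ≤ ‖z - (x : ℂ)‖ := by
      have := abs_nonneg x
      linarith
    have h4 : 0 < ‖z - (x : ℂ)‖ := by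
      have := abs_nonneg C
      linarith
    have h5 : z - (x : ℂ) ≠ 0 := norm_pos_iff.mp h4
    refine ⟨h5, ?_⟩
    have h6 : z * (z - (x : ℂ))⁻¹ - 1 = x * (z - (x : ℂ))⁻¹ := by
      field_simp
      ring
    rw [h6, norm_mul, norm_inv, Complex.norm_real, Real.norm_eq_abs, ← div_eq_mul_inv,
      div_le_iff₀ h4]
    linarith
  have hinj : ∀ z w : ℂ, K < ‖z‖ → K < ‖w‖ → cauchyT μ z = cauchyT μ w → z = w := by
    intro z w hz hw hzw
    by_contra hne
    have hint : ∀ z : ℂ, K < ‖z‖ → Integrable (fun x : ℝ => (z - (x : ℂ))⁻¹) μ := by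
      intro z hz
      have hz0 : z ≠ 0 := by
        rintro rfl
        rw [norm_zero] at hz
        linarith
      have h1 : Integrable (fun x : ℝ => z * (z - (x : ℂ))⁻¹) μ := by
        apply Integrable.of_bound (C := 4 / 3)
        · apply Measurable.aestronglyMeasurable
          fun_prop
        · filter_upwards [hae] with x hx
          have h2 := (hker z hz x hx).2
          have h3 := norm_add_le (z * (z - (x : ℂ))⁻¹ - 1) 1
          rw [sub_add_cancel, norm_one] at h3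
          linarith
      have h2 := h1.const_mul z⁻¹
      refine h2.congr (Eventually.of_forall fun x => ?_)
      simp only
      rw [← mul_assoc, inv_mul_cancel₀ hz0, one_mul]
    have h1 : ∫ x : ℝ, ((z - (x : ℂ))⁻¹ - (w - (x : ℂ))⁻¹) ∂μ = 0 := by
      rw [integral_sub (hint z hz) (hint w hw)]
      unfold cauchyT at hzw
      rw [hzw, sub_self]
    have h2 : ∫ x : ℝ, ((z * (z - (x : ℂ))⁻¹) * (w * (w - (x : ℂ))⁻¹)) ∂μ = 0 := by
      have h3 : ∫ x : ℝ, ((z * (z - (x : ℂ))⁻¹) * (w * (w - (x : ℂ))⁻¹)) ∂μ =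
          ∫ x : ℝ, (z * w / (w - z)) * ((z - (x : ℂ))⁻¹ - (w - (x : ℂ))⁻¹) ∂μ := by
        apply integral_congr_ae
        filter_upwards [hae] with x hx
        have h4 := (hker z hz x hx).1
        have h5 := (hker w hw x hx).1
        have h6 : w - z ≠ 0 := sub_ne_zero.mpr (Ne.symm hne)
        field_simp
        ring
      rw [h3, integral_const_mul, h1, mul_zero]
    have h4 : ‖∫ x : ℝ, ((z * (z - (x : ℂ))⁻¹) * (w * (w - (x : ℂ))⁻¹) - 1) ∂μ‖ ≤ 7 / 9 := by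
      have := norm_integral_le_of_norm_le_const (μ := μ) (C := 7 / 9)
        (f := fun x : ℝ => ((z * (z - (x : ℂ))⁻¹) * (w * (w - (x : ℂ))⁻¹) - 1)) (by
          filter_upwards [hae] with x hx
          have h4 := (hker z hz x hx).2
          have h5 := (hker w hw x hx).2
          set a := z * (z - (x : ℂ))⁻¹
          set b := w * (w - (x : ℂ))⁻¹
          have h6 : a * b - 1 = (a - 1) * (b - 1) + (a - 1) + (b - 1) := by ring
          rw [h6]
          have h7 : ‖(a - 1) * (b - 1)‖ ≤ 1 / 9 := by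
            rw [norm_mul]
            calc ‖a - 1‖ * ‖b - 1‖ ≤ (1 / 3) * (1 / 3) :=
                  mul_le_mul h4 h5 (norm_nonneg _) (by norm_num)
              _ = 1 / 9 := by norm_num
          have h8 := norm_add_le ((a - 1) * (b - 1) + (a - 1)) (b - 1)
          have h9 := norm_add_le ((a - 1) * (b - 1)) (a - 1)
          linarith)
      simpa using this
    have hint2 : Integrable (fun x : ℝ => (z * (z - (x : ℂ))⁻¹) * (w * (w - (x : ℂ))⁻¹)) μ := by
      apply Integrable.of_bound (C := 16 / 9)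
      · apply Measurable.aestronglyMeasurable
        fun_prop
      · filter_upwards [hae] with x hx
        have h4 := (hker z hz x hx).2
        have h5 := (hker w hw x hx).2
        rw [norm_mul]
        have h6 := norm_add_le (z * (z - (x : ℂ))⁻¹ - 1) 1
        have h7 := norm_add_le (w * (w - (x : ℂ))⁻¹ - 1) 1
        rw [sub_add_cancel, norm_one] at h6 h7
        calc ‖z * (z - (x : ℂ))⁻¹‖ * ‖w * (w - (x : ℂ))⁻¹‖ ≤ (4 / 3) * (4 / 3) :=
              mul_le_mul (by linarith) (by linarith) (norm_nonneg _) (by norm_num)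
          _ = 16 / 9 := by norm_num
    rw [integral_sub hint2 (integrable_const _), h2] at h4
    simp at h4
    norm_num at h4
  have hbig : ∀ R : ℂ → ℂ, AnalyticAt ℂ R 0 → ∀ᶠ u in 𝓝[≠] (0 : ℂ), K < ‖R u + 1 / u‖ := by
    intro R hR
    have h1 : ∀ᶠ u in 𝓝[≠] (0 : ℂ), ‖R u‖ < ‖R 0‖ + 1 :=
      nhdsWithin_le_nhds (hR.continuousAt.norm.eventually (gt_mem_nhds (by linarith)))
    have h2 : ∀ᶠ u in 𝓝[≠] (0 : ℂ), K + ‖R 0‖ + 1 < ‖u⁻¹‖ :=
      (tendsto_norm_atTop_iff_cobounded.mpr (tendsto_inv₀_nhdsNE_zero (α := ℂ))).eventually_gt_atTop _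
    filter_upwards [h1, h2] with u h1 h2
    have h3 := norm_sub_norm_le (1 / u) (-(R u))
    rw [norm_neg, sub_neg_eq_add, add_comm (1 / u) (R u), one_div] at h3
    rw [one_div]
    linarith
  filter_upwards [h.2, h'.2, hbig R h.1, hbig R' h'.1] with u h1 h2 h3 h4
  have := hinj _ _ h3 h4 (by rw [h1, h2])
  exact add_right_cancel this

end Pool.Agent.R951.FM
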