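import Mathlib
import Pool.Agent.R951.FM.Trans
import Pool.Agent.R951.FM.Fam1

set_option autoImplicit false

open MeasureTheory Filter Topology Set Complex Metric

namespace Pool.Agent.R951.FM

/-- the complement of `[0, ∞)` -/
def Om : Set ℂ := {z | z.re < 0 ∨ z.im ≠ 0}

theorem isOpen_Om : IsOpen Om := by
  have : Om = {z : ℂ | z.re < 0} ∪ {z : ℂ | z.im ≠ 0} := rfl
  rw [this]
  exact (isOpen_lt continuous_re continuous_const).union
    (isOpen_ne_fun continuous_im continuous_const)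

theorem isPreconnected_Om : IsPreconnected Om := by
  have h : StarConvex ℝ (1 : ℂ) slitPlane := Complex.starConvex_one_slitPlane
  have h1 : IsPreconnected slitPlane := (h.isPathConnected Complex.one_mem_slitPlane).isConnected.isPreconnected
  have h2 : Om = (fun z : ℂ => -z) '' slitPlane := by
    ext z
    simp only [Om, mem_ofPred_eq, mem_image, mem_slitPlane_iff]
    constructor
    · intro hz
      refine ⟨-z, ?_, by simp⟩
      rw [neg_re, neg_im]
      rcases hz with h | h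
      · left; linarith
      · right; simpa using h
    · rintro ⟨w, hw, rfl⟩
      rw [neg_re, neg_im]
      rcases hw with h | h
      · left; linarith
      · right; simpa using h
  rw [h2]
  exact h1.image _ (by fun_prop)

theorem cauchy_diff {ν : Measure ℝ} [IsProbabilityMeasure ν] (hν : OnHalfLine ν) :
    DifferentiableOn ℂ (cauchyT ν) Om := by
  intro z₀ hz₀
  apply DifferentiableAt.differentiableWithinAt
  obtain ⟨ε, hε, hball⟩ := Metric.isOpen_iff.mp isOpen_Om z₀ hz₀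
  have hae : ∀ᵐ x ∂ν, 0 ≤ x := by
    rw [ae_iff]
    have : {a : ℝ | ¬0 ≤ a} = Iio 0 := by
      ext x
      simp
    rw [this]
    exact hν
  have hdist : ∀ x : ℝ, 0 ≤ x → ∀ z ∈ ball z₀ (ε / 2), ε / 2 ≤ ‖z - (x : ℂ)‖ := by
    intro x hx z hz
    by_contra hcon
    push Not at hcon
    have h1 : (x : ℂ) ∈ ball z₀ ε := by
      rw [mem_ball, dist_comm, dist_eq_norm]
      rw [mem_ball, dist_eq_norm] at hz
      have h2 := norm_add_le (z₀ - z) (z - (x : ℂ))
      rw [sub_add_sub_cancel] at h2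
      rw [norm_sub_rev] at hz
      linarith
    have h2 := hball h1
    rcases h2 with h2 | h2
    · rw [ofReal_re] at h2
      linarith
    · exact h2 (ofReal_im x)
  have hne : ∀ x : ℝ, 0 ≤ x → ∀ z ∈ ball z₀ (ε / 2), z - (x : ℂ) ≠ 0 := by
    intro x hx z hz h
    have := hdist x hx z hz
    rw [h, norm_zero] at this
    linarith
  have hz0b : z₀ ∈ ball z₀ (ε / 2) := mem_ball_self (by linarith)
  have key := hasDerivAt_integral_of_dominated_loc_of_deriv_le (μ := ν) (𝕜 := ℂ)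
    (F := fun z (x : ℝ) => (z - (x : ℂ))⁻¹) (F' := fun z (x : ℝ) => -1 / (z - (x : ℂ)) ^ 2)
    (x₀ := z₀) (s := ball z₀ (ε / 2)) (bound := fun _ => 1 / (ε / 2) ^ 2)
    (isOpen_ball.mem_nhds hz0b)
    (Eventually.of_forall fun z => by
      apply Measurable.aestronglyMeasurable
      fun_prop)
    (by
      apply Integrable.of_bound (C := (ε / 2)⁻¹)
      · apply Measurable.aestronglyMeasurable
        fun_prop
      · filter_upwards [hae] with x hx
        rw [norm_inv]
        exact inv_anti₀ (by linarith) (hdist x hx z₀ hz0b))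
    (by
      apply Measurable.aestronglyMeasurable
      fun_prop)
    (by
      filter_upwards [hae] with x hx z hz
      rw [norm_div, norm_neg, norm_one, norm_pow]
      apply div_le_div_of_nonneg_left (by norm_num) (by positivity)
      exact pow_le_pow_left₀ (by linarith) (hdist x hx z hz) 2)
    (integrable_const _)
    (by
      filter_upwards [hae] with x hx z hz
      have h1 : HasDerivAt (fun z : ℂ => z - (x : ℂ)) 1 z := (hasDerivAt_id z).sub_const _
      exact h1.inv (hne x hx z hz))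
  exact key.2.differentiableAt

theorem cauchy_real {ν : Measure ℝ} (x : ℝ) : (cauchyT ν (x : ℂ)).im = 0 := by
  unfold cauchyT
  have : (∫ y : ℝ, ((x : ℂ) - (y : ℂ))⁻¹ ∂ν) = ((∫ y : ℝ, (x - y)⁻¹ ∂ν : ℝ) : ℂ) := by
    rw [← integral_complex_ofReal]
    congr 1
    ext y
    push_cast
    rfl
  rw [this]
  exact ofReal_im _

theorem not_half {μ : Measure ℝ} (hμ : CompactProb μ) {ρ : ℂ → ℂ} (hρ : AnalyticAt ℂ ρ 0)
    (hρ0 : ρ 0 = 0) (hinv : ∀ᶠ s in 𝓝 0, gm (ρ s) = s)
    (hR : IsRTransform μ (fun u => 10 + ρ u)) {ν : Measure ℝ} (hν : IsProbabilityMeasure ν)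
    (hh : OnHalfLine ν) (hp : IsAddPow (1 / 20) μ ν) : False := by
  obtain ⟨R, hR1, hR2⟩ := hp
  have hu := R_unique hμ hR1 hR
  have ha : ∀ᶠ u in 𝓝 (0 : ℂ), AnalyticAt ℂ ρ u := hρ.eventually_analyticAt
  have hb : ∀ᶠ u in 𝓝 (0 : ℂ), ‖ρ u‖ < 1 / 2 := by
    have := hρ.continuousAt.norm
    rw [ContinuousAt, hρ0, norm_zero] at this
    exact this.eventually (gt_mem_nhds (by norm_num))
  have hall : ∀ᶠ u in 𝓝[≠] (0 : ℂ), cauchyT ν (1 / 20 * (10 + ρ u) + 1 / u) = u ∧
      gm (ρ u) = u ∧ AnalyticAt ℂ ρ u ∧ ‖ρ u‖ < 1 / 2 := by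
    filter_upwards [hu, hR2.2, nhdsWithin_le_nhds hinv, nhdsWithin_le_nhds ha,
      nhdsWithin_le_nhds hb] with u h1 h2 h3 h4 h5
    refine ⟨?_, h3, h4, h5⟩
    rw [h1] at h2
    have : ((1 / 20 : ℝ) : ℂ) = 1 / 20 := by push_cast; ring
    rw [this] at h2
    exact h2
  rw [eventually_nhdsWithin_iff, Metric.eventually_nhds_iff] at hall
  obtain ⟨ε, hε, hall⟩ := hall
  set δ : ℝ := min (ε / 2) (1 / 2) with hδ
  have hδ0 : 0 < δ := lt_min (by linarith) (by norm_num)
  have hδ1 : δ ≤ 1 / 2 := min_le_right _ _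
  have hδε : δ < ε := lt_of_le_of_lt (min_le_left _ _) (by linarith)
  set u₀ : ℂ := ((-δ : ℝ) : ℂ) with hu0
  have hu00 : u₀ ≠ 0 := by
    rw [hu0]
    exact_mod_cast (by linarith : -δ ≠ 0)
  have hu0n : ‖u₀‖ = δ := by
    rw [hu0, Complex.norm_real, Real.norm_eq_abs, abs_neg, abs_of_pos hδ0]
  have hP : ∀ᶠ u in 𝓝 u₀, cauchyT ν (1 / 20 * (10 + ρ u) + 1 / u) = u ∧
      gm (ρ u) = u ∧ AnalyticAt ℂ ρ u ∧ ‖ρ u‖ < 1 / 2 := by
    have h1 : ∀ᶠ u in 𝓝 u₀, u ≠ 0 := isOpen_ne.mem_nhds hu00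
    have h2 : ∀ᶠ u in 𝓝 u₀, ‖u‖ < ε :=
      (continuous_norm.tendsto u₀).eventually (gt_mem_nhds (by rw [hu0n]; exact hδε))
    filter_upwards [h1, h2] with u h1 h2
    exact hall (by rwa [dist_zero_right]) h1
  set K : ℂ → ℂ := fun u => 1 / 20 * (10 + ρ u) + 1 / u with hK
  have hP0 := hP.self_of_nhds
  have hKc : ContinuousAt K u₀ := by
    have h1 := hP0.2.2.1.continuousAt
    apply ContinuousAt.add
    · exact continuousAt_const.mul (continuousAt_const.add h1)
    · exact continuousAt_const.div continuousAt_id hu00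
  have hKΩ : K u₀ ∈ Om := by
    left
    have h1 : |(ρ u₀).re| < 1 / 2 := lt_of_le_of_lt (abs_re_le_norm _) hP0.2.2.2
    have h2 : (1 / u₀).re = -(1 / δ) := by
      rw [hu0, one_div, ← ofReal_inv, ofReal_re, inv_neg, one_div]
    have h3 : (K u₀).re = 1 / 20 * (10 + (ρ u₀).re) + -(1 / δ) := by
      rw [hK]
      simp only [add_re]
      rw [h2]
      have : (1 / 20 * (10 + ρ u₀) : ℂ) = ((1 / 20 : ℝ) : ℂ) * (((10 : ℝ) : ℂ) + ρ u₀) := by
        push_cast
        ring
      rw [this]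
      simp only [mul_re, ofReal_re, add_re, ofReal_im, zero_mul, sub_zero]
    rw [h3]
    have h4 : 2 ≤ 1 / δ := by
      rw [le_div_iff₀ hδ0]
      linarith
    have h5 := (abs_lt.mp h1).2
    linarith
  have hKt : Tendsto K (𝓝[≠] u₀) (𝓝[≠] (K u₀)) := by
    apply tendsto_nhdsWithin_of_tendsto_nhds_of_eventually_within
    · exact hKc.tendsto.mono_left nhdsWithin_le_nhds
    · filter_upwards [self_mem_nhdsWithin, nhdsWithin_le_nhds hP] with u h1 h2
      intro h3
      apply h1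
      have h4 : K u = K u₀ := h3
      have h5 : cauchyT ν (K u) = u := h2.1
      have h6 : cauchyT ν (K u₀) = u₀ := hP0.1
      rw [h4, h6] at h5
      exact h5.symm
  -- the algebraic relation
  set E : ℂ → ℂ := fun z => ((z - 1 / 2) * cauchyT ν z - 1) ^ 2 + (1 / 400) * cauchyT ν z ^ 2 -
    1 / 10 * ((z - 1 / 2) * cauchyT ν z - 1) with hE
  have hEan : AnalyticOnNhd ℂ E Om := by
    have h1 : DifferentiableOn ℂ E Om := by
      have := cauchy_diff hh
      fun_prop
    exact h1.analyticOnNhd isOpen_Om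
  have hfreq : ∃ᶠ z in 𝓝[≠] (K u₀), E z = 0 := by
    apply hKt.frequently
    apply Eventually.frequently
    filter_upwards [nhdsWithin_le_nhds hP, nhdsWithin_le_nhds (isOpen_ne.mem_nhds hu00)] with u h1 h2
    have h5 : cauchyT ν (K u) = u := h1.1
    have hu0' : u ≠ 0 := h2
    simp only [hE, h5]
    have h3 := h1.2.1
    have hs : ρ u ^ 2 + 1 ≠ 0 := by
      apply sq_add_one_ne
      rw [normSq_eq_norm_sq]
      have := h1.2.2.2
      have := norm_nonneg (ρ u)
      nlinarith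
    have h4 : 2 * ρ u = u * (ρ u ^ 2 + 1) := by
      unfold gm at h3
      rw [div_eq_iff hs] at h3
      exact h3
    have h6 : (K u - 1 / 2) * u - 1 = 1 / 20 * ρ u * u := by
      simp only [hK]
      field_simp
      ring
    rw [h6]
    linear_combination (-(u / 400)) * h4
  have hEq := hEan.eqOn_zero_of_preconnected_of_frequently_eq_zero isPreconnected_Om hKΩ hfreq
  have hx : ((-1 / 10 : ℝ) : ℂ) ∈ Om := by
    left
    rw [ofReal_re]
    norm_num
  have h1 := hEq hx
  have h2 := cauchy_real (ν := ν) (-1 / 10)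
  set F := cauchyT ν ((-1 / 10 : ℝ) : ℂ) with hF
  have hFr : F = (F.re : ℂ) := by apply Complex.ext <;> simp [h2]
  simp only [hE, Pi.zero_apply] at h1
  rw [← hF, hFr] at h1
  have h3 : ((-1 / 10 - 1 / 2) * F.re - 1) ^ 2 + (1 / 400) * F.re ^ 2 -
      1 / 10 * ((-1 / 10 - 1 / 2) * F.re - 1) = 0 := by
    have h4 : ((((-1 / 10 - 1 / 2) * F.re - 1) ^ 2 + (1 / 400) * F.re ^ 2 -
      1 / 10 * ((-1 / 10 - 1 / 2) * F.re - 1) : ℝ) : ℂ) = 0 := by
      push_cast at h1 ⊢
      linear_combination h1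
    exact Complex.ofReal_eq_zero.mp h4
  nlinarith [sq_nonneg (0.725 * F.re + 1.26)]

end Pool.Agent.R951.FM
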