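import Mathlib
import Pool.Agent.R951.FM.Trans
import Pool.Agent.R951.FM.NotReg
import Pool.Agent.R951.FM.Fam5

set_option autoImplicit false

open MeasureTheory Filter Topology Set Complex Metric

namespace Pool.Agent.R951.FM

theorem compact_of {μ : Measure ℝ} {L U : ℝ} (h : μ (Icc L U)ᶜ = 0) :
    ∃ C : ℝ, μ (Icc (-C) C)ᶜ = 0 := by
  refine ⟨max |L| |U|, measure_mono_null ?_ h⟩
  apply compl_subset_compl.mpr
  intro x hx
  have := abs_le_max_abs_abs hx.1 hx.2
  exact abs_le.mp this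

theorem half_of {μ : Measure ℝ} {L U : ℝ} (hL : 0 ≤ L) (h : μ (Icc L U)ᶜ = 0) :
    OnHalfLine μ := by
  refine measure_mono_null ?_ h
  intro x hx h2
  have : x < 0 := hx
  linarith [h2.1]

theorem ne_ev : ∀ᶠ X : ℂ in 𝓝[≠] 0, X ≠ 0 ∧ X ^ 2 + 1 ≠ 0 ∧ 10 + X ≠ 0 ∧
    3 * X ^ 2 + 20 * X + 1 ≠ 0 := by
  have h1 : ∀ᶠ X : ℂ in 𝓝 0, X ^ 2 + 1 ≠ 0 := by
    have hc : Continuous fun X : ℂ => X ^ 2 + 1 := by fun_prop
    exact hc.continuousAt.eventually_ne (by simp)
  have h2 : ∀ᶠ X : ℂ in 𝓝 0, 10 + X ≠ 0 := by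
    have hc : Continuous fun X : ℂ => 10 + X := by fun_prop
    exact hc.continuousAt.eventually_ne (by simp)
  have h3 : ∀ᶠ X : ℂ in 𝓝 0, 3 * X ^ 2 + 20 * X + 1 ≠ 0 := by
    have hc : Continuous fun X : ℂ => 3 * X ^ 2 + 20 * X + 1 := by fun_prop
    exact hc.continuousAt.eventually_ne (by simp)
  filter_upwards [self_mem_nhdsWithin, nhdsWithin_le_nhds h1, nhdsWithin_le_nhds h2,
    nhdsWithin_le_nhds h3] with X a b c d
  exact ⟨a, b, c, d⟩

theorem gm_an : AnalyticAt ℂ gm 0 := by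
  unfold gm
  apply AnalyticAt.div (by fun_prop) (by fun_prop)
  simp

theorem gn_an : AnalyticAt ℂ gn 0 := by
  unfold gn
  apply AnalyticAt.div (by fun_prop) (by fun_prop)
  simp

/-- the local variable of the S-transforms -/
noncomputable def sg (X : ℂ) : ℂ := 2 * X * (10 + X) / (X ^ 2 + 1)

theorem sg_an : AnalyticAt ℂ sg 0 := by
  unfold sg
  apply AnalyticAt.div (by fun_prop) (by fun_prop)
  simp

theorem deriv_of_mul {f g : ℂ → ℂ} {c : ℂ} (hg : ContinuousAt g 0) (hg0 : g 0 = c)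
    (hf : ∀ X, f X = X * g X) : HasDerivAt f c 0 := by
  rw [hasDerivAt_iff_tendsto_slope]
  have h1 : Tendsto g (𝓝[≠] 0) (𝓝 c) := by
    have := hg.tendsto.mono_left (nhdsWithin_le_nhds (s := {0}ᶜ))
    rwa [hg0] at this
  refine h1.congr' ?_
  filter_upwards [self_mem_nhdsWithin] with X hX
  have hX0 : X ≠ 0 := hX
  rw [slope_def_field, hf X, hf 0, zero_mul, sub_zero, sub_zero]
  field_simp

theorem gm_deriv : deriv gm 0 ≠ 0 := by
  have h : HasDerivAt gm 2 0 := by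
    apply deriv_of_mul (g := fun X => 2 / (X ^ 2 + 1))
    · apply ContinuousAt.div (by fun_prop) (by fun_prop)
      simp
    · simp
    · intro X
      unfold gm
      ring
  rw [h.deriv]
  norm_num

theorem gn_deriv : deriv gn 0 ≠ 0 := by
  have h : HasDerivAt gn (2 / 10) 0 := by
    apply deriv_of_mul (g := fun X => 2 / ((10 + X) * (X ^ 2 + 1)))
    · apply ContinuousAt.div (by fun_prop) (by fun_prop)
      simp
    · simp
    · intro X
      unfold gn
      ring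
  rw [h.deriv]
  norm_num

theorem sg_deriv : deriv sg 0 ≠ 0 := by
  have h : HasDerivAt sg 20 0 := by
    apply deriv_of_mul (g := fun X => 2 * (10 + X) / (X ^ 2 + 1))
    · apply ContinuousAt.div (by fun_prop) (by fun_prop)
      simp
    · simp
      norm_num
    · intro X
      unfold sg
      ring
  rw [h.deriv]
  norm_num

theorem main : ∃ μ ν : Measure ℝ,
    CompactProb μ ∧ OnHalfLine μ ∧ FreelyInfDiv μ ∧ ¬ FreeRegular μ ∧
    CompactProb ν ∧ OnHalfLine ν ∧ IsMulConv μ μ ν ∧ FreelyInfDiv ν := by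
  obtain ⟨μ, hμ1, hμ2, hμ3⟩ := fam1 (t := 1) one_pos
  obtain ⟨ν, hν1, hν2, hν3⟩ := nu_one
  obtain ⟨ρ, hρ, hρ0, hinv, hlim⟩ := exists_inv gm_an (by simp [gm]) gm_deriv
  obtain ⟨τ, hτ, hτ0, hinvτ, hlimτ⟩ := exists_inv gn_an (by simp [gn]) gn_deriv
  obtain ⟨σ, hσ, hσ0, hinvσ, hlimσ⟩ := exists_inv sg_an (by simp [sg]) sg_deriv
  have hμc : CompactProb μ := ⟨hμ1, compact_of hμ2⟩
  have hνc : CompactProb ν := ⟨hν1, compact_of hν2⟩
  have hsqrt : √((2 : ℝ) * 1 + 1) ≤ 2 := by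
    rw [Real.sqrt_le_left (by norm_num)]
    norm_num
  have hμh : OnHalfLine μ := half_of (by linarith) hμ2
  have hνh : OnHalfLine ν := half_of le_rfl hν2
  have hR : IsRTransform μ (fun u => 10 + ρ u) := by
    apply isR (Φ := fun X => 10 + X) (v := gm) (ζ := zm 1) hρ hρ0 hinv hlim (by fun_prop) _ hμ3
    intro X
    unfold zm gm
    rw [one_div_div]
    push_cast
    ring
  have hRt : ∀ t : ℝ, 0 < t → ∃ κ : Measure ℝ, CompactProb κ ∧
      IsRTransform κ (fun u => (t : ℂ) * (10 + ρ u)) := by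
    intro t ht
    obtain ⟨κ, h1, h2, h3⟩ := fam1 ht
    refine ⟨κ, ⟨h1, compact_of h2⟩, ?_⟩
    apply isR (Φ := fun X => (t : ℂ) * (10 + X)) (v := gm) (ζ := zm t) hρ hρ0 hinv hlim
      (by fun_prop) _ h3
    intro X
    unfold zm gm
    rw [one_div_div]
  have hS : IsRTransform ν (fun u => (10 + τ u) ^ 2) := by
    apply isR (Φ := fun X => (10 + X) ^ 2) (v := gn) (ζ := zn 1) hτ hτ0 hinvτ hlimτ (by fun_prop) _
      hν3
    intro X
    unfold zn gn
    rw [one_div_div]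
    push_cast
    ring
  have hSq : ∀ q : ℝ, 0 < q → q ≤ 1 → ∃ κ : Measure ℝ, CompactProb κ ∧
      IsRTransform κ (fun u => (q : ℂ) * (10 + τ u) ^ 2) := by
    intro q hq hq1
    obtain ⟨κ, h1, h2, h3⟩ := nu_q hq hq1
    refine ⟨κ, ⟨h1, compact_of h2⟩, ?_⟩
    apply isR (Φ := fun X => (q : ℂ) * (10 + X) ^ 2) (v := gn) (ζ := zn q) hτ hτ0 hinvτ hlimτ
      (by fun_prop) _ h3
    intro X
    unfold zn gn
    rw [one_div_div]
    ring
  refine ⟨μ, ν, hμc, hμh, ?_, ?_, hνc, hνh, ?_, ?_⟩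
  · intro n hn
    have hn' : (0 : ℝ) < n := by exact_mod_cast hn
    obtain ⟨κ, h1, h2⟩ := hRt (1 / n) (by positivity)
    refine ⟨κ, h1, _, h2, ?_⟩
    have : (fun z : ℂ => ((n : ℝ) : ℂ) * (((1 / (n : ℝ) : ℝ) : ℂ) * (10 + ρ z))) =
        fun z => 10 + ρ z := by
      ext z
      have hn0 : (n : ℂ) ≠ 0 := by exact_mod_cast hn'.ne'
      push_cast
      field_simp
    rw [this]
    exact hR
  · rintro ⟨_, h⟩
    obtain ⟨κ, h1, h2, h3⟩ := h (1 / 20) (by norm_num)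
    exact not_half hμc hρ hρ0 hinv hR h1 h2 h3
  · obtain ⟨C, hC⟩ := hμc.2
    obtain ⟨C', hC'⟩ := hνc.2
    have hm0 : Tendsto gm (𝓝[≠] 0) (𝓝 0) := by
      have := gm_an.continuousAt.tendsto.mono_left (nhdsWithin_le_nhds (s := {0}ᶜ))
      simpa [gm] using this
    have hn0 : Tendsto gn (𝓝[≠] 0) (𝓝 0) := by
      have := gn_an.continuousAt.tendsto.mono_left (nhdsWithin_le_nhds (s := {0}ᶜ))
      simpa [gn] using this
    have hone : Tendsto (fun X => 1 + sg X) (𝓝[≠] 0) (𝓝 1) := by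
      have := (sg_an.continuousAt.tendsto.mono_left (nhdsWithin_le_nhds (s := {0}ᶜ))).const_add 1
      simpa [sg] using this
    have hσm : ∀ᶠ X in 𝓝[≠] (0 : ℂ), zm 1 X * gm X = 1 + sg X := by
      filter_upwards [ne_ev] with X ⟨h1, h2, h3, h4⟩
      unfold zm gm sg
      push_cast
      field_simp
      ring
    have hσn : ∀ᶠ X in 𝓝[≠] (0 : ℂ), zn 1 X * gn X = 1 + sg X := by
      filter_upwards [ne_ev] with X ⟨h1, h2, h3, h4⟩
      unfold zn gn sg
      push_cast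
      field_simp
    have hTm : ∀ᶠ X in 𝓝[≠] (0 : ℂ), sg X / (1 + sg X) * (1 / (10 + X)) = (zm 1 X)⁻¹ := by
      filter_upwards [ne_ev] with X ⟨h1, h2, h3, h4⟩
      have e1 : 1 + sg X = (3 * X ^ 2 + 20 * X + 1) / (X ^ 2 + 1) := by
        unfold sg
        field_simp
        ring
      have e2 : zm 1 X = (3 * X ^ 2 + 20 * X + 1) / (2 * X) := by
        unfold zm
        push_cast
        field_simp
        ring
      rw [e1, e2]
      unfold sg
      field_simp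
    have hTn : ∀ᶠ X in 𝓝[≠] (0 : ℂ), sg X / (1 + sg X) * (1 / (10 + X) * (1 / (10 + X))) =
        (zn 1 X)⁻¹ := by
      filter_upwards [ne_ev] with X ⟨h1, h2, h3, h4⟩
      have e1 : 1 + sg X = (3 * X ^ 2 + 20 * X + 1) / (X ^ 2 + 1) := by
        unfold sg
        field_simp
        ring
      have e2 : zn 1 X = (10 + X) * (3 * X ^ 2 + 20 * X + 1) / (2 * X) := by
        unfold zn
        push_cast
        field_simp
        ring
      rw [e1, e2]
      unfold sg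
      field_simp
    have hTan : AnalyticAt ℂ (fun X : ℂ => 1 / (10 + X)) 0 := by
      apply AnalyticAt.div (by fun_prop) (by fun_prop)
      simp
    have hTm2 := isS hC (T := fun X => 1 / (10 + X)) hμ3
      (hone.congr' (by filter_upwards [hσm] with X h using h.symm)) hm0 hσ hσ0 hinvσ hlimσ hTan
      hTm hσm
    have hTn2 := isS hC' (T := fun X => 1 / (10 + X) * (1 / (10 + X))) hν3
      (hone.congr' (by filter_upwards [hσn] with X h using h.symm)) hn0 hσ hσ0 hinvσ hlimσ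
      (hTan.mul hTan) hTn hσn
    exact ⟨_, _, hTm2, hTm2, hTn2⟩
  · intro n hn
    have hn' : (0 : ℝ) < n := by exact_mod_cast hn
    have hn1 : (1 : ℝ) ≤ n := by exact_mod_cast hn
    obtain ⟨κ, h1, h2⟩ := hSq (1 / n) (by positivity) (by rw [div_le_one hn']; exact hn1)
    refine ⟨κ, h1, _, h2, ?_⟩
    have : (fun z : ℂ => ((n : ℝ) : ℂ) * (((1 / (n : ℝ) : ℝ) : ℂ) * (10 + τ z) ^ 2)) =
        fun z => (10 + τ z) ^ 2 := by
      ext z
      have hn0 : (n : ℂ) ≠ 0 := by exact_mod_cast hn'.ne'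
      push_cast
      field_simp
    rw [this]
    exact hS

end Pool.Agent.R951.FM
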